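import Mathlib

set_option autoImplicit false

/-!
# Almost periodic functions: the uniform closure of trigonometric polynomials
-/

open Filter Topology MeasureTheory Complex
open scoped BoundedContinuousFunction

namespace Run7.h482.SG

/-- The character `ξ ↦ exp(-2πi z ξ)` as a bounded continuous function. -/
noncomputable def chr (z : ℝ) : ℝ →ᵇ ℂ :=
  BoundedContinuousFunction.ofNormedAddCommGroup
    (fun ξ : ℝ => Complex.exp (((-2 * Real.pi * z * ξ : ℝ) : ℂ) * I)) (by fun_prop) 1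
    (fun ξ => by rw [Complex.norm_exp_ofReal_mul_I])

lemma chr_apply (z ξ : ℝ) :
    chr z ξ = Complex.exp (((-2 * Real.pi * z * ξ : ℝ) : ℂ) * I) := rfl

lemma norm_chr_apply (z ξ : ℝ) : ‖chr z ξ‖ = 1 := by
  rw [chr_apply, Complex.norm_exp_ofReal_mul_I]

lemma chr_add (z ξ τ : ℝ) : chr z (ξ + τ) = chr z ξ * chr z τ := by
  simp only [chr_apply, ← Complex.exp_add]
  congr 1
  push_cast
  ring

lemma chr_zero_right (z : ℝ) : chr z 0 = 1 := by simp [chr_apply]

lemma chr_mul (z z' : ℝ) : chr z * chr z' = chr (z + z') := by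
  ext ξ
  simp only [BoundedContinuousFunction.mul_apply, chr_apply, ← Complex.exp_add]
  congr 1
  push_cast
  ring

lemma chr_zero : chr 0 = 1 := by
  ext ξ
  simp [chr_apply]

/-- The algebra of almost periodic functions. -/
noncomputable def apAlg : Subalgebra ℂ (ℝ →ᵇ ℂ) :=
  (Algebra.adjoin ℂ (Set.range chr)).topologicalClosure

lemma chr_mem (z : ℝ) : chr z ∈ apAlg :=
  Subalgebra.le_topologicalClosure _ (Algebra.subset_adjoin ⟨z, rfl⟩)

lemma isClosed_apAlg : IsClosed (apAlg : Set (ℝ →ᵇ ℂ)) :=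
  Subalgebra.isClosed_topologicalClosure _

/-- every element of the span of characters is approximated -/
lemma adjoin_le_span (g : ℝ →ᵇ ℂ) (hg : g ∈ Algebra.adjoin ℂ (Set.range chr)) :
    g ∈ Submodule.span ℂ (Set.range chr) := by
  induction hg using Algebra.adjoin_induction with
  | mem x hx => exact Submodule.subset_span hx
  | algebraMap r =>
    have : (algebraMap ℂ (ℝ →ᵇ ℂ)) r = r • chr 0 := by
      rw [chr_zero, Algebra.algebraMap_eq_smul_one]
    rw [this]
    exact Submodule.smul_mem _ _ (Submodule.subset_span ⟨0, rfl⟩)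
  | add x y hx hy hx' hy' => exact Submodule.add_mem _ hx' hy'
  | mul x y hx hy hx' hy' =>
    clear hx hy
    induction hx' using Submodule.span_induction with
    | mem x hx =>
      obtain ⟨z, rfl⟩ := hx
      induction hy' using Submodule.span_induction with
      | mem y hy =>
        obtain ⟨z', rfl⟩ := hy
        rw [chr_mul]
        exact Submodule.subset_span ⟨_, rfl⟩
      | zero => rw [mul_zero]; exact Submodule.zero_mem _
      | add u v _ _ hu hv => rw [mul_add]; exact Submodule.add_mem _ hu hv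
      | smul c u _ hu => rw [mul_smul_comm]; exact Submodule.smul_mem _ _ hu
    | zero => rw [zero_mul]; exact Submodule.zero_mem _
    | add u v _ _ hu hv => rw [add_mul]; exact Submodule.add_mem _ hu hv
    | smul c u _ hu => rw [smul_mul_assoc]; exact Submodule.smul_mem _ _ hu

lemma exists_span_approx {g : ℝ →ᵇ ℂ} (hg : g ∈ apAlg) {ε : ℝ} (hε : 0 < ε) :
    ∃ h ∈ Submodule.span ℂ (Set.range chr), ‖g - h‖ < ε := by
  have h1 : g ∈ closure ((Algebra.adjoin ℂ (Set.range chr) : Subalgebra ℂ (ℝ →ᵇ ℂ)) :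
      Set (ℝ →ᵇ ℂ)) := by
    rw [← Subalgebra.topologicalClosure_coe]
    exact hg
  obtain ⟨h, hh, hd⟩ := Metric.mem_closure_iff.1 h1 ε hε
  exact ⟨h, adjoin_le_span h hh, by rwa [dist_eq_norm] at hd⟩

/-- simultaneous almost periods for finitely many characters -/
lemma exists_chr_period (S : Finset ℝ) {ε : ℝ} (hε : 0 < ε) :
    ∃ L : ℝ, 0 ≤ L ∧ ∀ a : ℝ, ∃ τ ∈ Set.Icc a (a + L), ∀ z ∈ S, ‖chr z τ - 1‖ < ε := by
  classical
  let v : ℝ → (S → ℂ) := fun u z => chr z.1 u
  have hb : TotallyBounded (Set.range v) := by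
    refine (isCompact_closedBall (0 : S → ℂ) 1).totallyBounded.subset ?_
    rintro _ ⟨u, rfl⟩
    rw [mem_closedBall_zero_iff, pi_norm_le_iff_of_nonneg zero_le_one]
    intro z
    exact (norm_chr_apply _ _).le
  obtain ⟨t, ht, htf, hcov⟩ := Metric.finite_approx_of_totallyBounded hb ε hε
  have ht' : ∀ y ∈ t, ∃ u, v u = y := fun y hy => ht hy
  choose! w hw using ht'
  have hbd : ∃ R : ℝ, 0 ≤ R ∧ ∀ y ∈ t, |w y| ≤ R := by
    have := (htf.image (fun y => |w y|)).bddAbove
    obtain ⟨R, hR⟩ := this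
    exact ⟨max R 0, le_max_right _ _, fun y hy => le_max_of_le_left (hR ⟨y, hy, rfl⟩)⟩
  obtain ⟨R, hR0, hR⟩ := hbd
  refine ⟨2 * R, by positivity, fun a => ?_⟩
  have h1 := hcov ⟨a + R, rfl⟩
  simp only [Set.mem_iUnion] at h1
  obtain ⟨y, hy, hyb⟩ := h1
  have hwy := hw y hy
  have hRy := hR y hy
  rw [abs_le] at hRy
  refine ⟨a + R - w y, ⟨by linarith, by linarith⟩, fun z hz => ?_⟩
  have h2 : ‖chr z (a + R) - chr z (w y)‖ < ε := by
    rw [Metric.mem_ball, dist_eq_norm, ← hwy] at hyb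
    exact lt_of_le_of_lt (norm_le_pi_norm (v (a + R) - v (w y)) ⟨z, hz⟩) hyb
  have h3 : chr z (a + R) = chr z (a + R - w y) * chr z (w y) := by
    rw [← chr_add]; congr 1; ring
  have h4 : chr z (a + R) - chr z (w y) = (chr z (a + R - w y) - 1) * chr z (w y) := by
    rw [h3]; ring
  rwa [h4, norm_mul, norm_chr_apply, mul_one] at h2

/-- relatively dense almost periods -/
lemma exists_period {g : ℝ →ᵇ ℂ} (hg : g ∈ apAlg) {ε : ℝ} (hε : 0 < ε) :
    ∃ L : ℝ, 0 ≤ L ∧ ∀ a : ℝ, ∃ τ ∈ Set.Icc a (a + L), ∀ ξ, ‖g (ξ + τ) - g ξ‖ ≤ ε := by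
  obtain ⟨h, hh, hgh⟩ := exists_span_approx hg (show 0 < ε / 3 by positivity)
  obtain ⟨c, hc, rfl⟩ := (Finsupp.mem_span_range_iff_exists_finsupp).1 hh
  have hsum : ∀ ξ, (c.sum fun z a => a • chr z) ξ = ∑ z ∈ c.support, c z * chr z ξ := by
    intro ξ
    rw [Finsupp.sum, BoundedContinuousFunction.coe_sum]
    simp
  set K : ℝ := ∑ z ∈ c.support, ‖c z‖ with hK
  have hK0 : 0 ≤ K := Finset.sum_nonneg fun _ _ => norm_nonneg _
  obtain ⟨L, hL, hper⟩ := exists_chr_period c.support (show 0 < ε / 3 / (K + 1) by positivity)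
  refine ⟨L, hL, fun a => ?_⟩
  obtain ⟨τ, hτ, hτ'⟩ := hper a
  refine ⟨τ, hτ, fun ξ => ?_⟩
  have h1 : ‖g (ξ + τ) - (c.sum fun z a => a • chr z) (ξ + τ)‖ ≤ ε / 3 :=
    ((g - _).norm_coe_le_norm (ξ + τ)).trans hgh.le
  have h2 : ‖g ξ - (c.sum fun z a => a • chr z) ξ‖ ≤ ε / 3 :=
    ((g - _).norm_coe_le_norm ξ).trans hgh.le
  have h3 : ‖(c.sum fun z a => a • chr z) (ξ + τ) - (c.sum fun z a => a • chr z) ξ‖ ≤ ε / 3 := by
    rw [hsum, hsum, ← Finset.sum_sub_distrib]
    have : ∀ z ∈ c.support, ‖c z * chr z (ξ + τ) - c z * chr z ξ‖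
        ≤ ‖c z‖ * (ε / 3 / (K + 1)) := by
      intro z hz
      have : c z * chr z (ξ + τ) - c z * chr z ξ = c z * (chr z ξ * (chr z τ - 1)) := by
        rw [chr_add]; ring
      rw [this, norm_mul, norm_mul, norm_chr_apply, one_mul]
      exact mul_le_mul_of_nonneg_left (hτ' z hz).le (norm_nonneg _)
    calc _ ≤ ∑ z ∈ c.support, ‖c z * chr z (ξ + τ) - c z * chr z ξ‖ := norm_sum_le _ _
      _ ≤ ∑ z ∈ c.support, ‖c z‖ * (ε / 3 / (K + 1)) := Finset.sum_le_sum this
      _ = K * (ε / 3 / (K + 1)) := by rw [← Finset.sum_mul]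
      _ ≤ (K + 1) * (ε / 3 / (K + 1)) := by
        apply mul_le_mul_of_nonneg_right _ (by positivity)
        linarith
      _ = ε / 3 := by field_simp
  calc ‖g (ξ + τ) - g ξ‖
      = ‖(g (ξ + τ) - (c.sum fun z a => a • chr z) (ξ + τ))
        + ((c.sum fun z a => a • chr z) (ξ + τ) - (c.sum fun z a => a • chr z) ξ)
        - (g ξ - (c.sum fun z a => a • chr z) ξ)‖ := by congr 1; ring
    _ ≤ ‖(g (ξ + τ) - (c.sum fun z a => a • chr z) (ξ + τ))
        + ((c.sum fun z a => a • chr z) (ξ + τ) - (c.sum fun z a => a • chr z) ξ)‖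
        + ‖g ξ - (c.sum fun z a => a • chr z) ξ‖ := norm_sub_le _ _
    _ ≤ ε := by
      have := norm_add_le (g (ξ + τ) - (c.sum fun z a => a • chr z) (ξ + τ))
        ((c.sum fun z a => a • chr z) (ξ + τ) - (c.sum fun z a => a • chr z) ξ)
      linarith

/-- averages over `[-n, n]` -/
noncomputable def avg (f : ℝ → ℂ) (n : ℕ) : ℂ := (1 / (2 * (n : ℂ))) * ∫ ξ in (-(n : ℝ))..n, f ξ

/-- averages over `[-n, n]` of real functions -/
noncomputable def avgR (f : ℝ → ℝ) (n : ℕ) : ℝ := (1 / (2 * (n : ℝ))) * ∫ ξ in (-(n : ℝ))..n, f ξ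

lemma avg_add {f g : ℝ → ℂ} (hf : Continuous f) (hg : Continuous g) (n : ℕ) :
    avg (fun ξ => f ξ + g ξ) n = avg f n + avg g n := by
  unfold avg
  rw [intervalIntegral.integral_add (hf.intervalIntegrable _ _) (hg.intervalIntegrable _ _)]
  ring

lemma avg_sub {f g : ℝ → ℂ} (hf : Continuous f) (hg : Continuous g) (n : ℕ) :
    avg (fun ξ => f ξ - g ξ) n = avg f n - avg g n := by
  unfold avg
  rw [intervalIntegral.integral_sub (hf.intervalIntegrable _ _) (hg.intervalIntegrable _ _)]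
  ring

lemma avg_smul (c : ℂ) (f : ℝ → ℂ) (n : ℕ) :
    avg (fun ξ => c * f ξ) n = c * avg f n := by
  unfold avg
  rw [intervalIntegral.integral_const_mul]
  ring

lemma norm_avg_le (f : ℝ → ℂ) (n : ℕ) : ‖avg f n‖ ≤ avgR (fun ξ => ‖f ξ‖) n := by
  unfold avg avgR
  rw [norm_mul]
  have h1 : ‖(1 / (2 * (n : ℂ)))‖ = 1 / (2 * (n : ℝ)) := by
    rw [norm_div, norm_mul]; simp
  rw [h1]
  apply mul_le_mul_of_nonneg_left _ (by positivity)
  apply intervalIntegral.norm_integral_le_integral_norm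
  have : (0 : ℝ) ≤ n := n.cast_nonneg
  linarith

lemma avgR_mono {f g : ℝ → ℝ} (hf : Continuous f) (hg : Continuous g) (h : ∀ ξ, f ξ ≤ g ξ)
    (n : ℕ) : avgR f n ≤ avgR g n := by
  unfold avgR
  apply mul_le_mul_of_nonneg_left _ (by positivity)
  apply intervalIntegral.integral_mono_on _ (hf.intervalIntegrable _ _)
    (hg.intervalIntegrable _ _) (fun x _ => h x)
  have : (0 : ℝ) ≤ n := n.cast_nonneg
  linarith

lemma avgR_const_le (C : ℝ) (hC : 0 ≤ C) (n : ℕ) : avgR (fun _ => C) n ≤ C := by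
  unfold avgR
  rw [intervalIntegral.integral_const]
  rcases Nat.eq_zero_or_pos n with h | h
  · subst h; simpa using hC
  · have : (0 : ℝ) < n := by exact_mod_cast h
    apply le_of_eq
    simp only [smul_eq_mul]
    field_simp
    ring

lemma avgR_nonneg {f : ℝ → ℝ} (h : ∀ ξ, 0 ≤ f ξ) (n : ℕ) : 0 ≤ avgR f n := by
  unfold avgR
  apply mul_nonneg (by positivity)
  apply intervalIntegral.integral_nonneg _ (fun x _ => h x)
  have : (0 : ℝ) ≤ n := n.cast_nonneg
  linarith

lemma avgR_add {f g : ℝ → ℝ} (hf : Continuous f) (hg : Continuous g) (n : ℕ) :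
    avgR (fun ξ => f ξ + g ξ) n = avgR f n + avgR g n := by
  unfold avgR
  rw [intervalIntegral.integral_add (hf.intervalIntegrable _ _) (hg.intervalIntegrable _ _)]
  ring

lemma avgR_smul (c : ℝ) (f : ℝ → ℝ) (n : ℕ) :
    avgR (fun ξ => c * f ξ) n = c * avgR f n := by
  unfold avgR
  rw [intervalIntegral.integral_const_mul]
  ring

lemma norm_avg_le_const {f : ℝ → ℂ} (hf : Continuous f) {C : ℝ} (h : ∀ ξ, ‖f ξ‖ ≤ C) (n : ℕ) :
    ‖avg f n‖ ≤ C := by
  have hC : 0 ≤ C := (norm_nonneg _).trans (h 0)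
  exact (norm_avg_le f n).trans ((avgR_mono hf.norm continuous_const h n).trans
    (avgR_const_le C hC n))

/-- averages of nontrivial characters converge to zero -/
lemma avg_chr_zero {z : ℝ} (hz : z ≠ 0) : Tendsto (avg (chr z)) atTop (𝓝 0) := by
  rw [tendsto_zero_iff_norm_tendsto_zero]
  set k : ℂ := ((-2 * Real.pi * z : ℝ) : ℂ) * I with hk
  have hk0 : k ≠ 0 := by
    rw [hk]
    apply mul_ne_zero _ I_ne_zero
    rw [Complex.ofReal_ne_zero]
    have := Real.pi_ne_zero
    simp [this, hz]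
  have hkn : 0 < ‖k‖ := norm_pos_iff.2 hk0
  have h1 : ∀ n : ℕ, ‖avg (chr z) n‖ ≤ (1 / ‖k‖) * (1 / (n : ℝ)) := by
    intro n
    have h2 : ∫ ξ in (-(n : ℝ))..n, chr z ξ
        = (Complex.exp (k * n) - Complex.exp (k * (-n))) / k := by
      have : ∀ ξ : ℝ, chr z ξ = Complex.exp (k * ξ) := by
        intro ξ
        rw [chr_apply, hk]
        congr 1
        push_cast
        ring
      simp only [this]
      rw [integral_exp_mul_complex hk0]
      push_cast
      rfl
    have hn1 : ∀ x : ℝ, ‖Complex.exp (k * x)‖ = 1 := by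
      intro x
      have : k * x = (((-2 * Real.pi * z * x : ℝ) : ℂ) * I) := by rw [hk]; push_cast; ring
      rw [this, Complex.norm_exp_ofReal_mul_I]
    unfold avg
    have h3 : ‖(1 / (2 * (n : ℂ)))‖ = 1 / (2 * (n : ℝ)) := by
      rw [norm_div, norm_mul]; simp
    rw [h2, norm_mul, h3, norm_div]
    have h4 : ‖Complex.exp (k * n) - Complex.exp (k * (-n))‖ ≤ 2 := by
      have h5 := hn1 n
      have h6 := hn1 (-n)
      push_cast at h5 h6
      calc _ ≤ ‖Complex.exp (k * n)‖ + ‖Complex.exp (k * (-n))‖ := norm_sub_le _ _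
        _ = 2 := by rw [h5, h6]; norm_num
    calc 1 / (2 * (n : ℝ)) * (‖Complex.exp (k * n) - Complex.exp (k * (-n))‖ / ‖k‖)
        ≤ 1 / (2 * (n : ℝ)) * (2 / ‖k‖) := by gcongr
      _ = (1 / ‖k‖) * (1 / (n : ℝ)) := by
        rcases Nat.eq_zero_or_pos n with h | h
        · subst h; simp
        · have : (0 : ℝ) < n := by exact_mod_cast h
          field_simp
  refine squeeze_zero (fun _ => norm_nonneg _) h1 ?_
  have := (tendsto_one_div_atTop_nhds_zero_nat (𝕜 := ℝ)).const_mul (1 / ‖k‖)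
  simpa using this

/-- averages of characters converge -/
lemma avg_chr_tendsto (z : ℝ) : ∃ c : ℂ, Tendsto (avg (chr z)) atTop (𝓝 c) := by
  rcases eq_or_ne z 0 with rfl | hz
  · refine ⟨1, ?_⟩
    apply tendsto_const_nhds.congr'
    filter_upwards [eventually_gt_atTop 0] with n hn
    have : (n : ℂ) ≠ 0 := by exact_mod_cast hn.ne'
    unfold avg
    simp only [chr_zero, BoundedContinuousFunction.coe_one, Pi.one_apply]
    rw [intervalIntegral.integral_const]
    simp only [Complex.real_smul]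
    push_cast
    field_simp
    ring
  · exact ⟨0, avg_chr_zero hz⟩

/-- averages of almost periodic functions converge -/
lemma avg_tendsto {g : ℝ →ᵇ ℂ} (hg : g ∈ apAlg) : ∃ c : ℂ, Tendsto (avg g) atTop (𝓝 c) := by
  have hspan : ∀ h ∈ Submodule.span ℂ (Set.range chr), ∃ c : ℂ,
      Tendsto (avg (h : ℝ →ᵇ ℂ)) atTop (𝓝 c) := by
    intro h hh
    induction hh using Submodule.span_induction with
    | mem x hx =>
      obtain ⟨z, rfl⟩ := hx
      exact avg_chr_tendsto z
    | zero =>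
      refine ⟨0, ?_⟩
      have : avg ((0 : ℝ →ᵇ ℂ) : ℝ → ℂ) = fun _ => 0 := by
        funext n
        simp [avg]
      rw [this]
      exact tendsto_const_nhds
    | add x y _ _ hx hy =>
      obtain ⟨c, hc⟩ := hx
      obtain ⟨d, hd⟩ := hy
      refine ⟨c + d, ?_⟩
      have : avg ((x + y : ℝ →ᵇ ℂ) : ℝ → ℂ) = fun n => avg x n + avg y n := by
        funext n
        exact avg_add x.continuous y.continuous n
      rw [this]
      exact hc.add hd
    | smul a x _ hx =>
      obtain ⟨c, hc⟩ := hx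
      refine ⟨a * c, ?_⟩
      have : avg ((a • x : ℝ →ᵇ ℂ) : ℝ → ℂ) = fun n => a * avg x n := by
        funext n
        exact avg_smul a x n
      rw [this]
      exact hc.const_mul a
  apply cauchySeq_tendsto_of_complete
  rw [Metric.cauchySeq_iff]
  intro ε hε
  obtain ⟨h, hh, hgh⟩ := exists_span_approx hg (show 0 < ε / 3 by positivity)
  obtain ⟨c, hc⟩ := hspan h hh
  obtain ⟨N, hN⟩ := (Metric.cauchySeq_iff.1 hc.cauchySeq) (ε / 3) (by positivity)
  refine ⟨N, fun m hm n hn => ?_⟩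
  have h1 := hN m hm n hn
  have h2 : ∀ k, ‖avg g k - avg h k‖ ≤ ε / 3 - (ε / 3 - ‖g - h‖) := by
    intro k
    rw [← avg_sub g.continuous h.continuous]
    have h5 : ‖avg (fun ξ => g ξ - h ξ) k‖ ≤ ‖g - h‖ :=
      norm_avg_le_const (g.continuous.sub h.continuous) (C := ‖g - h‖)
        (fun ξ => (g - h).norm_coe_le_norm ξ) k
    linarith
  rw [dist_eq_norm] at h1 ⊢
  have h3 : avg g m - avg g n = (avg g m - avg h m) + (avg h m - avg h n)
      - (avg g n - avg h n) := by ring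
  rw [h3]
  calc _ ≤ ‖(avg g m - avg h m) + (avg h m - avg h n)‖ + ‖avg g n - avg h n‖ := norm_sub_le _ _
    _ ≤ ‖avg g m - avg h m‖ + ‖avg h m - avg h n‖ + ‖avg g n - avg h n‖ := by
      gcongr; exact norm_add_le _ _
    _ < ε := by
      have := h2 m
      have := h2 n
      linarith

end Run7.h482.SG
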