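import Pool.Agent.Run7.h482.SG.Null

set_option autoImplicit false

/-!
# The core argument
-/

open Filter Topology MeasureTheory Complex
open scoped BoundedContinuousFunction

namespace Run7.h482.SG

/-- a continuous logarithm on the line -/
lemma exists_log {P : ℝ → ℂ} (hP : Continuous P) (h0 : ∀ ξ, P ξ ≠ 0) :
    ∃ κ : ℝ → ℂ, Continuous κ ∧ ∀ ξ, Complex.exp (κ ξ) = P ξ := by
  obtain ⟨F, ⟨-, hF⟩, -⟩ := Complex.isCoveringMapOn_exp.existsUnique_continuousMap_lifts
    (⟨P, hP⟩ : C(ℝ, ℂ)) (a₀ := (0 : ℝ)) (e₀ := Complex.log (P 0)) (Complex.exp_log (h0 0))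
    (fun x => h0 x)
  exact ⟨F, F.continuous, fun ξ => congrFun hF ξ⟩

lemma eq_zero_of_exp_eq_one {z : ℂ} (h : Complex.exp z = 1) (hz : ‖z‖ < 1) : z = 0 := by
  obtain ⟨n, hn⟩ := Complex.exp_eq_one_iff.1 h
  have h1 : ‖z‖ = |(n : ℝ)| * (2 * Real.pi) := by
    rw [hn, norm_mul, norm_mul, norm_mul]
    simp [abs_of_pos Real.pi_pos]
  have h2 : (n : ℝ) = 0 := by
    by_contra hne
    have h3 : (1 : ℝ) ≤ |(n : ℝ)| := by
      have : n ≠ 0 := by intro h; apply hne; rw [h]; simp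
      have := Int.one_le_abs this
      exact_mod_cast this
    have h4 := Real.pi_gt_three
    nlinarith
  have h3 : n = 0 := by exact_mod_cast h2
  rw [hn, h3]
  simp

/-- a continuous function with `exp ∘ h = 1` is constant -/
lemma const_of_exp_one {h : ℝ → ℂ} (hc : Continuous h) (h1 : ∀ ξ, Complex.exp (h ξ) = 1)
    (ξ ξ' : ℝ) : h ξ = h ξ' := by
  have hclopen : IsClopen {x | h x = h ξ'} := by
    refine ⟨isClosed_eq hc continuous_const, ?_⟩
    rw [Metric.isOpen_iff]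
    intro x hx
    obtain ⟨δ, hδ, hδ'⟩ := Metric.continuous_iff.1 hc x 1 one_pos
    refine ⟨δ, hδ, fun y hy => ?_⟩
    have h2 := hδ' y hy
    rw [dist_eq_norm] at h2
    have h3 : Complex.exp (h y - h x) = 1 := by
      rw [Complex.exp_sub, h1, h1, div_one]
    have h4 := eq_zero_of_exp_eq_one h3 h2
    have h5 : h x = h ξ' := hx
    change h y = h ξ'
    rw [← h5]
    exact sub_eq_zero.1 h4
  have := hclopen.eq_univ ⟨ξ', rfl⟩
  have h6 : ξ ∈ {x | h x = h ξ'} := by rw [this]; trivial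
  exact h6

/-- The logarithm of an even invertible almost periodic function is bounded. -/
lemma log_bounded {P : ℝ →ᵇ ℂ} (hP : P ∈ apAlg) {c : ℝ} (hc : 0 < c) (hlow : ∀ ξ, c ≤ ‖P ξ‖)
    (heven : ∀ ξ, P (-ξ) = P ξ) {κ : ℝ → ℂ} (hκ : Continuous κ)
    (hκ' : ∀ ξ, Complex.exp (κ ξ) = P ξ) : ∃ K, ∀ ξ, ‖κ ξ‖ ≤ K := by
  have hκeven : ∀ ξ, κ ξ = κ (-ξ) := by
    intro ξ
    have h1 := const_of_exp_one (h := fun x => κ x - κ (-x)) (by fun_prop) (fun x => by
      rw [Complex.exp_sub, hκ', hκ', heven, div_self]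
      intro h
      have := hlow x
      rw [h, norm_zero] at this
      linarith) ξ 0
    simp only [neg_zero, sub_self] at h1
    exact sub_eq_zero.1 h1
  obtain ⟨L, hL, hper⟩ := exists_period hP (show 0 < c / 2 by positivity)
  obtain ⟨B, hB⟩ := (isCompact_Icc (a := -L) (b := 0)).exists_bound_of_continuousOn
    hκ.continuousOn
  refine ⟨B + 1, fun u => ?_⟩
  obtain ⟨τ, hτ, hτ'⟩ := hper u
  have hP0 : ∀ ξ, P ξ ≠ 0 := by
    intro ξ h
    have := hlow ξ
    rw [h, norm_zero] at this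
    linarith
  -- the ratio
  have hw : ∀ ξ, ‖P (ξ + τ) / P ξ - 1‖ ≤ 1 / 2 := by
    intro ξ
    have h1 : P (ξ + τ) / P ξ - 1 = (P (ξ + τ) - P ξ) / P ξ := by
      field_simp [hP0 ξ]
    rw [h1, norm_div, div_le_iff₀ (norm_pos_iff.2 (hP0 ξ))]
    have h2 := hτ' ξ
    have h3 := hlow ξ
    linarith
  have hslit : ∀ ξ, P (ξ + τ) / P ξ ∈ Complex.slitPlane := by
    intro ξ
    left
    have h1 := hw ξ
    have h2 := abs_re_le_norm (P (ξ + τ) / P ξ - 1)
    rw [abs_le] at h2
    have h3 : (P (ξ + τ) / P ξ - 1).re = (P (ξ + τ) / P ξ).re - 1 := by simp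
    linarith [h2.1]
  have hwc : Continuous (fun ξ => P (ξ + τ) / P ξ) :=
    (P.continuous.comp (by fun_prop : Continuous fun ξ : ℝ => ξ + τ)).div P.continuous hP0
  have hlogc : Continuous (fun ξ => Complex.log (P (ξ + τ) / P ξ)) :=
    hwc.clog hslit
  have h2 : ∀ ξ, κ (ξ + τ) - κ ξ - Complex.log (P (ξ + τ) / P ξ) = 0 := by
    intro ξ
    have h3 := const_of_exp_one
      (h := fun ξ => κ (ξ + τ) - κ ξ - Complex.log (P (ξ + τ) / P ξ))
      (((hκ.comp (by fun_prop : Continuous fun ξ : ℝ => ξ + τ)).sub hκ).sub hlogc)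
      (fun x => by
        rw [Complex.exp_sub, Complex.exp_sub, hκ', hκ',
          Complex.exp_log (div_ne_zero (hP0 _) (hP0 _)), div_self
            (div_ne_zero (hP0 _) (hP0 _))]) ξ (-τ / 2)
    rw [h3]
    have h4 : -τ / 2 + τ = τ / 2 := by ring
    have h5 : κ (-τ / 2) = κ (τ / 2) := by
      rw [hκeven (-τ / 2)]; congr 1; ring
    have h6 : P (-τ / 2) = P (τ / 2) := by
      rw [← heven (-τ / 2)]; congr 1; ring
    rw [h4, h5, h6, div_self (hP0 _), Complex.log_one]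
    ring
  have h3 : ‖κ u - κ (u - τ)‖ ≤ 1 := by
    have h4 := h2 (u - τ)
    rw [sub_add_cancel] at h4
    have h5 : κ u - κ (u - τ) = Complex.log (1 + (P u / P (u - τ) - 1)) := by
      rw [sub_eq_zero] at h4
      rw [h4]
      congr 1
      ring
    rw [h5]
    have h6 := hw (u - τ)
    rw [sub_add_cancel] at h6
    have h7 := Complex.norm_log_one_add_half_le_self h6
    linarith
  have h4 : u - τ ∈ Set.Icc (-L) 0 := ⟨by linarith [hτ.2], by linarith [hτ.1]⟩
  have h5 := hB _ h4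
  calc ‖κ u‖ = ‖κ (u - τ) + (κ u - κ (u - τ))‖ := by congr 1; ring
    _ ≤ ‖κ (u - τ)‖ + ‖κ u - κ (u - τ)‖ := norm_add_le _ _
    _ ≤ B + 1 := by linarith

/-- averages of functions tending to zero at infinity -/
lemma avg_zero_of_cocompact {f : ℝ → ℂ} (hf : Continuous f) (h : Tendsto f (cocompact ℝ) (𝓝 0)) :
    Tendsto (avg f) atTop (𝓝 0) := by
  have hnull : Null f := by
    unfold Null
    rw [Metric.tendsto_atTop]
    intro ε hε
    have h1 : ∀ᶠ x in cocompact ℝ, ‖f x‖ < ε / 2 := by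
      have := (Metric.tendsto_nhds.1 h) (ε / 2) (by positivity)
      simpa [dist_zero_right] using this
    obtain ⟨R, hR⟩ := Metric.closedBall_compl_subset_of_mem_cocompact h1 (0 : ℝ)
    set R' := max R 1 with hR'
    have hR'1 : 1 ≤ R' := le_max_right _ _
    have hR2 : ∀ x, R' < |x| → ‖f x‖ ≤ ε / 2 := by
      intro x hx
      refine (hR ?_).le
      simp only [Set.mem_compl_iff, Metric.mem_closedBall, Real.dist_eq, sub_zero, not_le]
      exact lt_of_le_of_lt (le_max_left _ _) hx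
    obtain ⟨B, hB⟩ := (isCompact_Icc (a := -R') (b := R')).exists_bound_of_continuousOn
      hf.continuousOn
    have hB0 : 0 ≤ B := (norm_nonneg _).trans (hB 0 ⟨by linarith, by linarith⟩)
    obtain ⟨N, hN⟩ := exists_nat_gt (2 * R' * B / (ε / 2) + R')
    refine ⟨N, fun n hn => ?_⟩
    have hn' : (N : ℝ) ≤ n := by exact_mod_cast hn
    have hpos : 0 ≤ 2 * R' * B / (ε / 2) := by positivity
    have hRn : R' ≤ n := by linarith
    have hn0 : (0 : ℝ) < n := by linarith
    have hi : ∀ a b, IntervalIntegrable (fun ξ => ‖f ξ‖) volume a b :=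
      fun a b => hf.norm.intervalIntegrable a b
    rw [Real.dist_eq, sub_zero, abs_of_nonneg (avgR_nonneg (fun _ => norm_nonneg _) n)]
    have e1 := intervalIntegral.integral_add_adjacent_intervals (hi (-(n : ℝ)) (-R')) (hi (-R') R')
    have e2 := intervalIntegral.integral_add_adjacent_intervals (hi (-(n : ℝ)) R') (hi R' n)
    have b1 : ∫ ξ in (-(n : ℝ))..(-R'), ‖f ξ‖ ≤ (n - R') * (ε / 2) := by
      have : ∫ ξ in (-(n : ℝ))..(-R'), (ε / 2) = (n - R') * (ε / 2) := by
        rw [intervalIntegral.integral_const, smul_eq_mul]; ring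
      rw [← this]
      apply intervalIntegral.integral_mono_on_of_le_Ioo (by linarith) (hi _ _)
        (continuous_const.intervalIntegrable _ _)
      intro x hx
      apply hR2
      rw [abs_of_neg (by linarith [hx.2])]
      linarith [hx.2]
    have b2 : ∫ ξ in (-R')..R', ‖f ξ‖ ≤ 2 * R' * B := by
      have : ∫ ξ in (-R')..R', B = 2 * R' * B := by
        rw [intervalIntegral.integral_const, smul_eq_mul]; ring
      rw [← this]
      apply intervalIntegral.integral_mono_on (by linarith) (hi _ _)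
        (continuous_const.intervalIntegrable _ _)
      intro x hx
      exact hB x hx
    have b3 : ∫ ξ in R'..(n : ℝ), ‖f ξ‖ ≤ (n - R') * (ε / 2) := by
      have : ∫ ξ in R'..(n : ℝ), (ε / 2) = (n - R') * (ε / 2) := by
        rw [intervalIntegral.integral_const, smul_eq_mul]
      rw [← this]
      apply intervalIntegral.integral_mono_on_of_le_Ioo (by linarith) (hi _ _)
        (continuous_const.intervalIntegrable _ _)
      intro x hx
      apply hR2
      rw [abs_of_pos (by linarith [hx.1])]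
      exact hx.1
    have b4 : ∫ ξ in (-(n : ℝ))..n, ‖f ξ‖ ≤ 2 * (n - R') * (ε / 2) + 2 * R' * B := by
      rw [← e2, ← e1]; linarith
    have b5 : 2 * R' * B < n * (ε / 2) := by
      have : 2 * R' * B / (ε / 2) < n := by linarith
      rwa [div_lt_iff₀ (by positivity)] at this
    unfold avgR
    rw [one_div, inv_mul_lt_iff₀ (by positivity)]
    have h7 : 0 < R' * ε := by positivity
    have h8 : 0 < (n : ℝ) * ε := by positivity
    change ∫ ξ in (-(n : ℝ))..n, ‖f ξ‖ < 2 * (n : ℝ) * ε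
    nlinarith
  exact hnull.avg

/-- a Baire category contradiction -/
lemma baire_contra {F : ℕ → ℝ → ℂ} {G : ℝ → ℂ} {y0 : ℝ} (hy0 : 0 < y0)
    (hcont : ∀ N, Continuous (F N))
    (hlim : ∀ y ∈ Set.Icc 0 y0, Tendsto (fun N => F N y) atTop (𝓝 (G y)))
    (hint : ∀ α β, 0 ≤ α → α ≤ β → β ≤ y0 →
      Tendsto (fun N => ∫ y in α..β, F N y) atTop (𝓝 0))
    (hdense : ∀ α β, 0 ≤ α → α < β → β ≤ y0 → ∃ y ∈ Set.Ioo α β, 1 / 2 ≤ ‖G y‖) : False := by
  let X := Set.Icc (0 : ℝ) y0
  let E : ℕ → Set X := fun N => {y | ∀ m ≥ N, ∀ n ≥ N, ‖F m y - F n y‖ ≤ 1 / 16}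
  have hEc : ∀ N, IsClosed (E N) := by
    intro N
    have : E N = ⋂ m ≥ N, ⋂ n ≥ N, {y : X | ‖F m y - F n y‖ ≤ 1 / 16} := by
      ext y; simp [E]
    rw [this]
    refine isClosed_biInter (fun m _ => isClosed_biInter (fun n _ => isClosed_le ?_ ?_))
    · exact (((hcont m).comp continuous_subtype_val).sub
        ((hcont n).comp continuous_subtype_val)).norm
    · exact continuous_const
  have hEu : ⋃ N, E N = Set.univ := by
    rw [Set.eq_univ_iff_forall]
    intro y
    obtain ⟨N, hN⟩ := (Metric.cauchySeq_iff.1 (hlim y.1 y.2).cauchySeq) (1 / 16) (by norm_num)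
    rw [Set.mem_iUnion]
    refine ⟨N, fun m hm n hn => ?_⟩
    have := hN m hm n hn
    rw [dist_eq_norm] at this
    exact this.le
  have hne : Nonempty X := ⟨⟨0, by constructor <;> linarith⟩⟩
  obtain ⟨N, x, hx⟩ := nonempty_interior_of_iUnion_of_closed hEc hEu
  rw [mem_interior_iff_mem_nhds, Metric.mem_nhds_iff] at hx
  obtain ⟨ε, hε, hball⟩ := hx
  have hE : ∀ y ∈ Set.Icc (0 : ℝ) y0, |y - x.1| < ε → ∀ m ≥ N, ∀ n ≥ N,
      ‖F m y - F n y‖ ≤ 1 / 16 := by
    intro y hy hyx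
    have : (⟨y, hy⟩ : X) ∈ E N := hball (by
      rw [Metric.mem_ball]
      exact hyx)
    exact this
  have hx0 : 0 ≤ x.1 := x.2.1
  have hx1 : x.1 ≤ y0 := x.2.2
  set α₀ := max 0 (x.1 - ε / 2) with hα₀
  set β₀ := min y0 (x.1 + ε / 2) with hβ₀
  have h0 : α₀ < β₀ := by
    rw [hα₀, hβ₀, max_lt_iff, lt_min_iff, lt_min_iff]
    refine ⟨⟨hy0, by linarith⟩, by linarith, by linarith⟩
  have hα0 : 0 ≤ α₀ := le_max_left _ _
  have hβ0 : β₀ ≤ y0 := min_le_left _ _
  have hα1 : x.1 - ε / 2 ≤ α₀ := le_max_right _ _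
  have hβ1 : β₀ ≤ x.1 + ε / 2 := min_le_right _ _
  obtain ⟨y1, hy1, hy1'⟩ := hdense α₀ β₀ hα0 h0 hβ0
  obtain ⟨η, hη, hη'⟩ := Metric.continuous_iff.1 (hcont N) y1 (1 / 16) (by norm_num)
  set β := min β₀ (y1 + η / 2) with hβ
  have hβy : y1 < β := by rw [hβ, lt_min_iff]; exact ⟨hy1.2, by linarith⟩
  have hββ : β ≤ β₀ := min_le_left _ _
  have hβη : β ≤ y1 + η / 2 := min_le_right _ _
  have hIcc : ∀ y ∈ Set.Icc y1 β, ∀ n ≥ N, ‖F n y - F N y1‖ ≤ 1 / 8 := by
    intro y hy n hn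
    have h1 : ‖F n y - F N y‖ ≤ 1 / 16 := by
      apply hE y ⟨by linarith [hy.1, hy1.1], by linarith [hy.2]⟩ _ n hn N le_rfl
      rw [abs_lt]
      constructor
      · linarith [hy.1, hy1.1]
      · linarith [hy.2]
    have h2 : ‖F N y - F N y1‖ ≤ 1 / 16 := by
      have := hη' y (by
        rw [Real.dist_eq, abs_lt]
        constructor
        · linarith [hy.1]
        · linarith [hy.2])
      rw [dist_eq_norm] at this
      exact this.le
    calc ‖F n y - F N y1‖ = ‖(F n y - F N y) + (F N y - F N y1)‖ := by congr 1; ring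
      _ ≤ ‖F n y - F N y‖ + ‖F N y - F N y1‖ := norm_add_le _ _
      _ ≤ 1 / 8 := by linarith
  have hlen : 0 < β - y1 := by linarith
  have h3 : ∀ n ≥ N, ‖(∫ y in y1..β, F n y) - ((β - y1 : ℝ) : ℂ) * F N y1‖
      ≤ 1 / 8 * (β - y1) := by
    intro n hn
    have e1 : (∫ y in y1..β, F n y) - ((β - y1 : ℝ) : ℂ) * F N y1
        = ∫ y in y1..β, (F n y - F N y1) := by
      rw [intervalIntegral.integral_sub ((hcont n).intervalIntegrable _ _)
        (continuous_const.intervalIntegrable _ _), intervalIntegral.integral_const,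
        Complex.real_smul]
    rw [e1]
    have := intervalIntegral.norm_integral_le_of_norm_le_const (a := y1) (b := β)
      (f := fun y => F n y - F N y1) (C := 1 / 8) (fun y hy => by
        rw [Set.uIoc_of_le hβy.le] at hy
        exact hIcc y ⟨hy.1.le, hy.2⟩ n hn)
    rwa [abs_of_pos hlen] at this
  have h4 : ‖(0 : ℂ) - ((β - y1 : ℝ) : ℂ) * F N y1‖ ≤ 1 / 8 * (β - y1) := by
    have h5 := hint y1 β (by linarith [hy1.1]) hβy.le (by linarith)
    refine le_of_tendsto (h5.sub_const _).norm ?_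
    filter_upwards [eventually_ge_atTop N] with n hn
    exact h3 n hn
  rw [zero_sub, norm_neg, norm_mul, Complex.norm_real, Real.norm_of_nonneg hlen.le,
    mul_comm] at h4
  have h6 : ‖F N y1‖ ≤ 1 / 8 := le_of_mul_le_mul_right h4 hlen
  have h7 : ‖G y1 - F N y1‖ ≤ 1 / 16 := by
    have h8 := hlim y1 ⟨by linarith [hy1.1], by linarith [hy1.2]⟩
    refine le_of_tendsto (h8.sub_const _).norm ?_
    filter_upwards [eventually_ge_atTop N] with n hn
    apply hE y1 ⟨by linarith [hy1.1], by linarith [hy1.2]⟩ _ n hn N le_rfl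
    rw [abs_lt]
    constructor
    · linarith [hy1.1]
    · linarith [hy1.2]
  have h9 : ‖G y1‖ ≤ ‖G y1 - F N y1‖ + ‖F N y1‖ := by
    calc ‖G y1‖ = ‖(G y1 - F N y1) + F N y1‖ := by congr 1; ring
      _ ≤ _ := norm_add_le _ _
  linarith

end Run7.h482.SG
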