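import Pool.Agent.Run7.h482.SG.Core

set_option autoImplicit false

/-!
# The core theorem
-/

open Filter Topology MeasureTheory Complex
open scoped BoundedContinuousFunction

namespace Run7.h482.SG

lemma avg_one {N : ℕ} (hN : 0 < N) : avg (fun _ => (1 : ℂ)) N = 1 := by
  have : (N : ℂ) ≠ 0 := by exact_mod_cast hN.ne'
  unfold avg
  rw [intervalIntegral.integral_const, Complex.real_smul]
  push_cast
  field_simp
  ring

lemma null_zero : Null (fun _ => (0 : ℂ)) := by
  unfold Null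
  have : avgR (fun _ : ℝ => ‖(0 : ℂ)‖) = fun _ => 0 := by
    funext n
    simp [avgR]
  rw [this]
  exact tendsto_const_nhds

section

variable {Φ : ℝ → ℂ}

/-- the functions `exp(-i y Φ)` -/
noncomputable def ef (Φ : ℝ → ℂ) (y : ℝ) (ξ : ℝ) : ℂ := Complex.exp (-(y * I * Φ ξ))

lemma ef_cont₂ (hΦ : Continuous Φ) : Continuous (fun p : ℝ × ℝ => ef Φ p.1 p.2) := by
  unfold ef
  fun_prop

lemma ef_cont (hΦ : Continuous Φ) (y : ℝ) : Continuous (ef Φ y) := by
  unfold ef
  fun_prop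

lemma ef_add (y y' ξ : ℝ) : ef Φ (y + y') ξ = ef Φ y ξ * ef Φ y' ξ := by
  unfold ef
  rw [← Complex.exp_add]
  congr 1
  push_cast
  ring

lemma ef_zero (ξ : ℝ) : ef Φ 0 ξ = 1 := by simp [ef]

lemma integral_ef {α β : ℝ} {ξ : ℝ} (h : Φ ξ ≠ 0) :
    ∫ y in α..β, ef Φ y ξ = (ef Φ β ξ - ef Φ α ξ) / (-(I * Φ ξ)) := by
  have hc : -(I * Φ ξ) ≠ 0 := neg_ne_zero.2 (mul_ne_zero I_ne_zero h)
  have h1 : ∀ y : ℝ, ef Φ y ξ = Complex.exp (-(I * Φ ξ) * y) := by
    intro y
    unfold ef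
    congr 1
    ring
  simp only [h1]
  exact integral_exp_mul_complex hc

lemma integral_ef_tendsto
    (hre : Tendsto (fun ξ => (Φ ξ).re) (cocompact ℝ) atTop) {M b : ℝ}
    (hbd : ∀ y, |y| ≤ b → ∀ ξ, ‖ef Φ y ξ‖ ≤ M) {α β : ℝ} (hα : |α| ≤ b) (hβ : |β| ≤ b) :
    Tendsto (fun ξ => ∫ y in α..β, ef Φ y ξ) (cocompact ℝ) (𝓝 0) := by
  rw [tendsto_zero_iff_norm_tendsto_zero]
  have h1 : Tendsto (fun ξ => (2 * M) / (Φ ξ).re) (cocompact ℝ) (𝓝 0) :=
    hre.const_div_atTop _
  refine squeeze_zero' (Filter.Eventually.of_forall (fun _ => norm_nonneg _)) ?_ h1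
  filter_upwards [hre.eventually_gt_atTop 0] with ξ hξ
  have h2 : Φ ξ ≠ 0 := by
    intro h
    rw [h] at hξ
    simp at hξ
  rw [integral_ef h2, norm_div, norm_neg, norm_mul, Complex.norm_I, one_mul]
  have h3 : (Φ ξ).re ≤ ‖Φ ξ‖ := (le_abs_self _).trans (abs_re_le_norm _)
  have h4 : ‖ef Φ β ξ - ef Φ α ξ‖ ≤ 2 * M := by
    have := norm_sub_le (ef Φ β ξ) (ef Φ α ξ)
    have := hbd β hβ ξ
    have := hbd α hα ξ
    linarith
  have h5 : 0 ≤ 2 * M := (norm_nonneg _).trans h4
  exact div_le_div₀ h5 h4 hξ h3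

lemma integral_avg_ef (hΦ : Continuous Φ) {α β : ℝ} (N : ℕ) :
    ∫ y in α..β, avg (ef Φ y) N = avg (fun ξ => ∫ y in α..β, ef Φ y ξ) N := by
  unfold avg
  rw [intervalIntegral.integral_const_mul]
  congr 1
  rw [MeasureTheory.intervalIntegral_intervalIntegral_swap]
  have h1 : IntegrableOn (Function.uncurry (ef Φ)) (Set.uIcc α β ×ˢ Set.uIcc (-(N : ℝ)) N) := by
    apply ContinuousOn.integrableOn_compact
    · exact isCompact_uIcc.prod isCompact_uIcc
    · exact (ef_cont₂ hΦ).continuousOn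
  exact h1.mono_set (Set.prod_mono Set.uIoc_subset_uIcc Set.uIoc_subset_uIcc)

theorem core (hΦ : Continuous Φ) (heven : ∀ ξ, Φ (-ξ) = Φ ξ)
    (hre : Tendsto (fun ξ => (Φ ξ).re) (cocompact ℝ) atTop) {M b : ℝ} (hb : 0 < b)
    (hbd : ∀ y, |y| ≤ b → ∀ ξ, ‖ef Φ y ξ‖ ≤ M)
    (hW : ∀ y, |y| ≤ b → W (ef Φ y)) : False := by
  have hM : 1 ≤ M := by
    have := hbd 0 (by simpa using hb.le) 0
    rwa [ef_zero, norm_one] at this
  have habs : |b| ≤ b := by rw [abs_of_pos hb]
  have habs' : |-b| ≤ b := by rw [abs_neg, abs_of_pos hb]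
  have hW' := hW
  unfold W at hW'
  choose! g hg hgn using hW'
  -- inverse
  have hinv : g b * g (-b) = 1 := by
    have h1 := W.mul (ef_cont hΦ b) (ef_cont hΦ (-b)) (hbd b habs) (hgn b habs) (hgn (-b) habs')
    have h2 : Null (fun ξ => (1 : ℂ) - (g b * g (-b)) ξ) := by
      convert h1 using 2 with ξ
      rw [← ef_add, add_neg_cancel, ef_zero]
    have h3 : Null (fun ξ => (1 : ℂ) - (1 : ℝ →ᵇ ℂ) ξ) := by
      convert null_zero using 2 with ξ
      simp
    exact ap_unique continuous_const (Subalgebra.mul_mem _ (hg b habs) (hg (-b) habs'))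
      (Subalgebra.one_mem _) h2 h3
  have hlow : ∀ ξ, 1 / M ≤ ‖g b ξ‖ := by
    intro ξ
    have h1 : ‖g (-b) ξ‖ ≤ M :=
      norm_le_of_null (ef_cont hΦ (-b)) (hg (-b) habs') (hgn (-b) habs') (hbd (-b) habs') ξ
    have h2 : g b ξ * g (-b) ξ = 1 := by
      have := congrArg (fun F : ℝ →ᵇ ℂ => F ξ) hinv
      simpa using this
    have h3 : ‖g b ξ‖ * ‖g (-b) ξ‖ = 1 := by rw [← norm_mul, h2, norm_one]
    rw [div_le_iff₀ (by linarith)]
    nlinarith [norm_nonneg (g b ξ)]
  have hP0 : ∀ ξ, g b ξ ≠ 0 := by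
    intro ξ h
    have := hlow ξ
    rw [h, norm_zero] at this
    have : 0 < 1 / M := by positivity
    linarith
  -- evenness
  have hPeven : ∀ ξ, g b (-ξ) = g b ξ := by
    have h1 : Null (fun ξ => ef Φ b ξ - refl (g b) ξ) := by
      have := (hgn b habs).comp_neg
      convert this using 2 with ξ
      rw [refl_apply]
      congr 1
      unfold ef
      rw [heven]
    have h2 := ap_unique (ef_cont hΦ b) (refl_mem (hg b habs)) (hg b habs) h1 (hgn b habs)
    intro ξ
    rw [← refl_apply, h2]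
  obtain ⟨κ, hκ, hκ'⟩ := exists_log (g b).continuous hP0
  obtain ⟨K, hK⟩ := log_bounded (hg b habs) (show 0 < 1 / M by positivity) hlow hPeven hκ hκ'
  have hK0 : 0 ≤ K := (norm_nonneg _).trans (hK 0)
  -- roots
  have hpow : ∀ n : ℕ, 0 < n → ∀ j : ℕ, j ≤ n →
      Null (fun ξ => ef Φ (j * (b / n)) ξ - (g (b / n) ^ j : ℝ →ᵇ ℂ) ξ) := by
    intro n hn j
    have hn' : (0 : ℝ) < n := by exact_mod_cast hn
    have hn1 : (1 : ℝ) ≤ n := by exact_mod_cast hn
    have hbn : |b / n| ≤ b := by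
      rw [abs_of_pos (by positivity), div_le_iff₀ hn']
      nlinarith
    induction j with
    | zero =>
      intro _
      convert null_zero using 2 with ξ
      simp [ef_zero]
    | succ j ih =>
      intro hj
      have hj' : j ≤ n := by omega
      have hjb : |(j : ℝ) * (b / n)| ≤ b := by
        rw [abs_of_nonneg (by positivity), ← mul_div_assoc, div_le_iff₀ hn']
        have : (j : ℝ) ≤ n := by exact_mod_cast hj'
        nlinarith
      have h1 := W.mul (ef_cont hΦ (j * (b / n))) (ef_cont hΦ (b / n)) (hbd _ hjb) (ih hj')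
        (hgn (b / n) hbn)
      convert h1 using 2 with ξ
      rw [← ef_add, pow_succ]
      congr 2
      push_cast
      ring
  have hroot : ∀ n : ℕ, 0 < n → g (b / n) ^ n = g b := by
    intro n hn
    have hn' : (0 : ℝ) < n := by exact_mod_cast hn
    have hn1 : (1 : ℝ) ≤ n := by exact_mod_cast hn
    have hbn : |b / n| ≤ b := by
      rw [abs_of_pos (by positivity), div_le_iff₀ hn']
      nlinarith
    have h1 := hpow n hn n le_rfl
    have h2 : (n : ℝ) * (b / n) = b := by field_simp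
    rw [h2] at h1
    exact ap_unique (ef_cont hΦ b) (Subalgebra.pow_mem _ (hg _ hbn) n) (hg b habs) h1
      (hgn b habs)
  -- the limit function
  have hGex : ∀ y, |y| ≤ b → ∃ c, Tendsto (avg (ef Φ y)) atTop (𝓝 c) := fun y hy =>
    W.exists_avg (ef_cont hΦ y) (hW y hy)
  choose! G hG using hGex
  have hGlow : ∀ n : ℕ, 0 < n → ∀ j : ℕ, j ≤ n → ((j : ℝ) / n) * K ≤ 1 / 4 →
      1 / 2 ≤ ‖G (j * (b / n))‖ := by
    intro n hn j hj hjK
    have hn' : (0 : ℝ) < n := by exact_mod_cast hn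
    have hjn : (j : ℝ) ≤ n := by exact_mod_cast hj
    have hnC : (n : ℂ) ≠ 0 := by exact_mod_cast hn.ne'
    have hjb : |(j : ℝ) * (b / n)| ≤ b := by
      rw [abs_of_nonneg (by positivity), ← mul_div_assoc, div_le_iff₀ hn']
      nlinarith
    have h1 := hpow n hn j hj
    -- average of `r^j`
    have h2 : Tendsto (avg ((g (b / n) ^ j : ℝ →ᵇ ℂ))) atTop (𝓝 (G (j * (b / n)))) := by
      have e1 : avg ((g (b / n) ^ j : ℝ →ᵇ ℂ)) = fun N => avg (ef Φ (j * (b / n))) N
          - avg (fun ξ => ef Φ (j * (b / n)) ξ - (g (b / n) ^ j : ℝ →ᵇ ℂ) ξ) N := by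
        funext N
        rw [avg_sub (ef_cont hΦ _) (BoundedContinuousFunction.continuous _)]
        ring
      rw [e1]
      simpa using (hG _ hjb).sub h1.avg
    have hr0 : ∀ ξ, g (b / n) ξ ≠ 0 := by
      intro ξ h
      have e1 := congrArg (fun F : ℝ →ᵇ ℂ => F ξ) (hroot n hn)
      simp only [BoundedContinuousFunction.pow_apply, h, zero_pow hn.ne'] at e1
      exact hP0 ξ e1.symm
    obtain ⟨κn, hκn, hκn'⟩ := exists_log (g (b / n)).continuous hr0
    set h : ℝ → ℂ := fun ξ => n * κn ξ - κ ξ with hh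
    have hhc : Continuous h := by rw [hh]; fun_prop
    have hhe : ∀ ξ, Complex.exp (h ξ) = 1 := by
      intro ξ
      rw [hh]
      simp only
      rw [Complex.exp_sub, hκ', Complex.exp_nat_mul, hκn']
      have e1 := congrArg (fun F : ℝ →ᵇ ℂ => F ξ) (hroot n hn)
      simp only [BoundedContinuousFunction.pow_apply] at e1
      rw [e1, div_self (hP0 ξ)]
    set c := h 0 with hc
    have hhc' : ∀ ξ, h ξ = c := fun ξ => const_of_exp_one hhc hhe ξ 0
    have hcre : c.re = 0 := by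
      have e1 := hhe 0
      have e2 : ‖Complex.exp c‖ = 1 := by rw [hc, e1, norm_one]
      rw [Complex.norm_exp] at e2
      have := Real.exp_eq_one_iff c.re
      exact this.1 e2
    have h3 : ∀ ξ, (g (b / n) ^ j : ℝ →ᵇ ℂ) ξ
        = Complex.exp (((j : ℝ) / n : ℝ) * c) * Complex.exp (((j : ℝ) / n : ℝ) * κ ξ) := by
      intro ξ
      rw [BoundedContinuousFunction.pow_apply, ← hκn', ← Complex.exp_nat_mul, ← Complex.exp_add]
      congr 1
      have e1 := hhc' ξ
      have e2 : κn ξ = (κ ξ + c) / n := by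
        rw [← e1, hh]
        field_simp
        ring
      rw [e2]
      push_cast
      field_simp
      ring
    have h4 : ∀ N : ℕ, 0 < N → 1 / 2 ≤ ‖avg ((g (b / n) ^ j : ℝ →ᵇ ℂ)) N‖ := by
      intro N hN
      have e1 : avg ((g (b / n) ^ j : ℝ →ᵇ ℂ)) N = Complex.exp (((j : ℝ) / n : ℝ) * c)
          * avg (fun ξ => Complex.exp (((j : ℝ) / n : ℝ) * κ ξ)) N := by
        rw [← avg_smul]
        congr 1
        funext ξ
        exact h3 ξ
      have e2 : ‖Complex.exp ((((j : ℝ) / n : ℝ) : ℂ) * c)‖ = 1 := by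
        rw [Complex.norm_exp]
        simp [hcre]
      rw [e1, norm_mul, e2, one_mul]
      have e3 : ‖avg (fun ξ => Complex.exp (((j : ℝ) / n : ℝ) * κ ξ) - 1) N‖ ≤ 1 / 2 := by
        apply norm_avg_le_const (by fun_prop)
        intro ξ
        have e4 : ‖(((j : ℝ) / n : ℝ) : ℂ) * κ ξ‖ ≤ 1 / 4 := by
          rw [norm_mul, Complex.norm_real, Real.norm_of_nonneg (by positivity)]
          exact (mul_le_mul_of_nonneg_left (hK ξ) (by positivity)).trans hjK
        have e5 := Complex.norm_exp_sub_one_le (x := (((j : ℝ) / n : ℝ) : ℂ) * κ ξ) (by linarith)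
        linarith
      rw [avg_sub (by fun_prop) continuous_const, avg_one hN] at e3
      have e4 : (1 : ℝ) ≤ ‖avg (fun ξ => Complex.exp (((j : ℝ) / n : ℝ) * κ ξ)) N‖
          + ‖avg (fun ξ => Complex.exp (((j : ℝ) / n : ℝ) * κ ξ)) N - 1‖ := by
        calc (1 : ℝ) = ‖(1 : ℂ)‖ := by simp
          _ = ‖avg (fun ξ => Complex.exp (((j : ℝ) / n : ℝ) * κ ξ)) N
              - (avg (fun ξ => Complex.exp (((j : ℝ) / n : ℝ) * κ ξ)) N - 1)‖ := by
            congr 1; ring
          _ ≤ _ := norm_sub_le _ _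
      linarith
    refine ge_of_tendsto h2.norm ?_
    filter_upwards [eventually_gt_atTop 0] with N hN
    exact h4 N hN
  -- the final contradiction
  set ρ : ℝ := min 1 (1 / (4 * (K + 1))) with hρ
  have hρ0 : 0 < ρ := by
    rw [hρ, lt_min_iff]
    exact ⟨one_pos, by positivity⟩
  have hρ1 : ρ ≤ 1 := min_le_left _ _
  have hρK : ρ * K ≤ 1 / 4 := by
    have h1 : ρ ≤ 1 / (4 * (K + 1)) := min_le_right _ _
    calc ρ * K ≤ 1 / (4 * (K + 1)) * K := mul_le_mul_of_nonneg_right h1 hK0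
      _ ≤ 1 / 4 := by
        rw [div_mul_eq_mul_div, div_le_div_iff₀ (by positivity) (by norm_num)]
        linarith
  have hρb : ρ * b ≤ b := by nlinarith
  refine baire_contra (F := fun N y => avg (ef Φ y) N) (G := G) (y0 := ρ * b) (by positivity)
    ?_ ?_ ?_ ?_
  · intro N
    unfold avg
    refine continuous_const.mul ?_
    exact intervalIntegral.continuous_parametric_intervalIntegral_of_continuous' (ef_cont₂ hΦ) _ _
  · intro y hy
    exact hG y (by rw [abs_of_nonneg hy.1]; linarith [hy.2])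
  · intro α β hα hαβ hβ
    simp only [integral_avg_ef hΦ]
    apply avg_zero_of_cocompact
    · have h5 : Continuous (fun p : ℝ × ℝ => ef Φ p.2 p.1) :=
        (ef_cont₂ hΦ).comp (continuous_snd.prodMk continuous_fst)
      exact intervalIntegral.continuous_parametric_intervalIntegral_of_continuous' h5 _ _
    · apply integral_ef_tendsto hre hbd
      · rw [abs_of_nonneg hα]; linarith
      · rw [abs_of_nonneg (by linarith)]; linarith
  · intro α β hα hαβ hβ
    obtain ⟨q, hq1, hq2⟩ := exists_rat_btwn (show α / b < β / b by gcongr)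
    have hq0 : 0 < (q : ℝ) := lt_of_le_of_lt (by positivity) hq1
    have hq0' : 0 < q := by exact_mod_cast hq0
    have hqnum : 0 < q.num := Rat.num_pos.2 hq0'
    have hj : ((q.num.toNat : ℕ) : ℤ) = q.num := Int.toNat_of_nonneg hqnum.le
    have hqeq : (q : ℝ) = (q.num.toNat : ℝ) / (q.den : ℝ) := by
      have h1 : ((q.num.toNat : ℕ) : ℝ) = (q.num : ℝ) := by exact_mod_cast hj
      rw [h1]
      exact_mod_cast (Rat.num_div_den q).symm
    have hden : 0 < q.den := q.den_pos
    have hden' : (0 : ℝ) < q.den := by exact_mod_cast hden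
    have hqρ : (q : ℝ) ≤ ρ := by
      have : β / b ≤ ρ := by rw [div_le_iff₀ hb]; exact hβ
      linarith
    refine ⟨q.num.toNat * (b / q.den), ⟨?_, ?_⟩, ?_⟩
    · rw [div_lt_iff₀ hb, hqeq] at hq1
      calc α < (q.num.toNat : ℝ) / (q.den : ℝ) * b := hq1
        _ = _ := by ring
    · rw [lt_div_iff₀ hb, hqeq] at hq2
      calc (q.num.toNat : ℝ) * (b / q.den) = (q.num.toNat : ℝ) / (q.den : ℝ) * b := by ring
        _ < β := hq2
    · apply hGlow q.den hden q.num.toNat
      · have h1 : (q.num.toNat : ℝ) / (q.den : ℝ) ≤ 1 := by rw [← hqeq]; linarith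
        rw [div_le_one hden'] at h1
        exact_mod_cast h1
      · rw [← hqeq]
        exact (mul_le_mul_of_nonneg_right hqρ hK0).trans hρK

end

end Run7.h482.SG
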