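import Mathlib

set_option autoImplicit false

/-!
# Scalar analytic semigroups on the right half plane
-/

open Filter Topology MeasureTheory Complex

namespace Run7.h482.SG

lemma isOpen_H : IsOpen {t : ℂ | 0 < t.re} := isOpen_lt continuous_const Complex.continuous_re

lemma convex_H : Convex ℝ {t : ℂ | 0 < t.re} := convex_halfSpace_re_gt 0

lemma scalar_exp {f : ℂ → ℂ} (hf : DifferentiableOn ℂ f {t | 0 < t.re})
    (hmul : ∀ s t : ℂ, 0 < s.re → 0 < t.re → f (s + t) = f s * f t) (h1 : f 1 ≠ 0) :
    ∃ φ : ℂ, ∀ t : ℂ, 0 < t.re → f t = Complex.exp (-(t * φ)) := by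
  have hH := isOpen_H
  have hd : ∀ t : ℂ, 0 < t.re → HasDerivAt f (deriv f t) t := fun t ht =>
    (hf.differentiableAt (hH.mem_nhds ht)).hasDerivAt
  have h1re : (0 : ℝ) < (1 : ℂ).re := by simp
  have hkey : ∀ t : ℂ, 0 < t.re → f 1 * deriv f t = deriv f 1 * f t := by
    intro t ht
    have h1t : 0 < (1 + t).re := by simp; linarith
    have e1 : HasDerivAt (fun s => f (s + t)) (deriv f (1 + t)) 1 := by
      have := (hd (1 + t) h1t)
      exact this.comp_add_const 1 t
    have e2 : HasDerivAt (fun s => f s * f t) (deriv f 1 * f t) 1 := (hd 1 h1re).mul_const _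
    have e3 : (fun s => f (s + t)) =ᶠ[𝓝 1] (fun s => f s * f t) := by
      filter_upwards [hH.mem_nhds h1re] with s hs
      exact hmul s t hs ht
    have e4 : deriv f (1 + t) = deriv f 1 * f t := e1.unique (e2.congr_of_eventuallyEq e3)
    have e5 : HasDerivAt (fun s => f (1 + s)) (deriv f (1 + t)) t := by
      have := (hd (1 + t) h1t)
      exact this.comp_const_add 1 t
    have e6 : HasDerivAt (fun s => f 1 * f s) (f 1 * deriv f t) t := (hd t ht).const_mul _
    have e7 : (fun s => f (1 + s)) =ᶠ[𝓝 t] (fun s => f 1 * f s) := by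
      filter_upwards [hH.mem_nhds ht] with s hs
      exact hmul 1 s h1re hs
    have e8 : deriv f (1 + t) = f 1 * deriv f t := e5.unique (e6.congr_of_eventuallyEq e7)
    rw [← e4, ← e8]
  set c : ℂ := deriv f 1 / f 1 with hc
  have hkey' : ∀ t : ℂ, 0 < t.re → deriv f t = c * f t := by
    intro t ht
    have := hkey t ht
    rw [hc]
    field_simp
    linear_combination this
  have hg : ∀ t : ℂ, 0 < t.re → HasDerivAt (fun t => f t * Complex.exp (-(c * t))) 0 t := by
    intro t ht
    have e1 : HasDerivAt (fun t : ℂ => Complex.exp (-(c * t))) (Complex.exp (-(c * t)) * (-c)) t := by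
      have : HasDerivAt (fun t : ℂ => -(c * t)) (-(c * 1)) t :=
        ((hasDerivAt_id' t).const_mul c).neg
      rw [mul_one] at this
      exact this.cexp
    have e2 : HasDerivAt (fun t => f t * Complex.exp (-(c * t)))
        (deriv f t * Complex.exp (-(c * t)) + f t * (Complex.exp (-(c * t)) * (-c))) t :=
      (hd t ht).mul e1
    have e3 : deriv f t * Complex.exp (-(c * t)) + f t * (Complex.exp (-(c * t)) * (-c)) = 0 := by
      rw [hkey' t ht]
      ring
    rw [e3] at e2
    exact e2
  have hconst : ∀ t : ℂ, 0 < t.re → f t * Complex.exp (-(c * t)) = f 1 * Complex.exp (-(c * 1)) := by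
    intro t ht
    exact hH.is_const_of_deriv_eq_zero convex_H.isPreconnected
      (fun s hs => (hg s hs).differentiableAt.differentiableWithinAt)
      (fun s hs => (hg s hs).deriv) ht h1re
  set K : ℂ := f 1 * Complex.exp (-(c * 1)) with hK
  have hf' : ∀ t : ℂ, 0 < t.re → f t = K * Complex.exp (c * t) := by
    intro t ht
    have := hconst t ht
    have h2 : Complex.exp (-(c * t)) * Complex.exp (c * t) = 1 := by
      rw [← Complex.exp_add]; simp
    calc f t = f t * (Complex.exp (-(c * t)) * Complex.exp (c * t)) := by rw [h2, mul_one]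
      _ = (f t * Complex.exp (-(c * t))) * Complex.exp (c * t) := by ring
      _ = K * Complex.exp (c * t) := by rw [this]
  have hK0 : K ≠ 0 := mul_ne_zero h1 (Complex.exp_ne_zero _)
  have hK1 : K = 1 := by
    have e1 := hmul 1 1 h1re h1re
    have h2re : (0 : ℝ) < (1 + 1 : ℂ).re := by simp
    rw [hf' _ h2re, hf' 1 h1re] at e1
    have e2 : Complex.exp (c * (1 + 1)) = Complex.exp (c * 1) * Complex.exp (c * 1) := by
      rw [← Complex.exp_add]; congr 1; ring
    rw [e2] at e1
    have e3 : K * (Complex.exp (c * 1) * Complex.exp (c * 1)) * (K - 1) = 0 := by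
      linear_combination -e1
    rcases mul_eq_zero.1 e3 with h | h
    · exact absurd h (mul_ne_zero hK0 (mul_ne_zero (Complex.exp_ne_zero _) (Complex.exp_ne_zero _)))
    · exact sub_eq_zero.1 h
  refine ⟨-c, fun t ht => ?_⟩
  rw [hf' t ht, hK1, one_mul]
  congr 1
  ring

lemma scalar_zero {f : ℂ → ℂ}
    (hmul : ∀ s t : ℂ, 0 < s.re → 0 < t.re → f (s + t) = f s * f t) (h1 : f 1 = 0) :
    ∀ t : ℂ, 0 < t.re → f t = 0 := by
  have hpow : ∀ (s : ℝ), 0 < s → ∀ n : ℕ, f (((n + 1 : ℕ) * s : ℝ) : ℂ) = f (s : ℂ) ^ (n + 1) := by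
    intro s hs n
    induction n with
    | zero => simp
    | succ n ih =>
      have : (((n + 1 + 1 : ℕ) * s : ℝ) : ℂ) = (((n + 1 : ℕ) * s : ℝ) : ℂ) + (s : ℂ) := by
        push_cast; ring
      rw [this, hmul _ _ (by rw [Complex.ofReal_re]; positivity) (by simpa using hs), ih]
      exact (pow_succ _ _).symm
  intro t ht
  obtain ⟨n, hn⟩ := exists_nat_one_div_lt ht
  set s : ℝ := 1 / ((n : ℝ) + 1) with hs
  have hs0 : 0 < s := by positivity
  have h2 : f (s : ℂ) = 0 := by
    have := hpow s hs0 n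
    have e : (((n + 1 : ℕ) * s : ℝ) : ℂ) = 1 := by
      rw [hs]
      push_cast
      have : (n : ℂ) + 1 ≠ 0 := by exact_mod_cast Nat.succ_ne_zero n
      field_simp
    rw [e, h1] at this
    exact (pow_eq_zero_iff (Nat.succ_ne_zero n)).1 this.symm
  have h3 : t = (t - s) + s := by ring
  rw [h3, hmul (t - s) s (by simp; linarith) (by simpa using hs0), h2, mul_zero]

end Run7.h482.SG
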