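import Pool.Agent.Run7.h482.SG.Weak

set_option autoImplicit false

/-!
# Analytic semigroups in `L¹(ℝ)`: the functions `A(t, ξ)`
-/

open Filter Topology MeasureTheory Complex
open scoped BoundedContinuousFunction FourierTransform Convolution

namespace Run7.h482.SG

/-- the space `L¹(ℝ)` -/
abbrev L1R : Type := Lp ℂ 1 (volume : Measure ℝ)

lemma integrable_chr_mul {f : ℝ → ℂ} (hf : Integrable f) (ξ : ℝ) :
    Integrable (fun s => chr s ξ * f s) :=
  hf.bdd_mul (c := 1) (chr_cont_left ξ).aestronglyMeasurable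
    (Filter.Eventually.of_forall (fun s => (norm_chr_apply _ _).le))

/-- The Fourier transform at `ξ` as a continuous linear functional on `L¹`. -/
noncomputable def Lam (ξ : ℝ) : L1R →L[ℂ] ℂ :=
  LinearMap.mkContinuous
    { toFun := fun f => ∫ s, chr s ξ * f s
      map_add' := by
        intro f g
        rw [← integral_add (integrable_chr_mul (L1.integrable_coeFn f) ξ)
          (integrable_chr_mul (L1.integrable_coeFn g) ξ)]
        apply integral_congr_ae
        filter_upwards [Lp.coeFn_add f g] with s hs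
        rw [hs, Pi.add_apply, mul_add]
      map_smul' := by
        intro c f
        rw [RingHom.id_apply, smul_eq_mul, ← integral_const_mul]
        apply integral_congr_ae
        filter_upwards [Lp.coeFn_smul c f] with s hs
        rw [hs, Pi.smul_apply, smul_eq_mul]
        ring } 1 (by
      intro f
      rw [one_mul, L1.norm_eq_integral_norm]
      refine (norm_integral_le_integral_norm _).trans (le_of_eq ?_)
      congr 1
      funext s
      rw [norm_mul, norm_chr_apply, one_mul])

lemma Lam_apply (ξ : ℝ) (f : L1R) : Lam ξ f = ∫ s, chr s ξ * f s := rfl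

lemma norm_Lam_le (ξ : ℝ) (f : L1R) : ‖Lam ξ f‖ ≤ ‖f‖ := by
  have := (Lam ξ).le_of_opNorm_le (c := 1) (LinearMap.mkContinuous_norm_le _ zero_le_one _) f
  simpa using this

lemma Lam_continuous (f : L1R) : Continuous (fun ξ => Lam ξ f) := by
  simp only [Lam_apply]
  apply continuous_of_dominated (bound := fun s => ‖f s‖)
  · intro ξ
    exact (chr_cont_left ξ).aestronglyMeasurable.mul (L1.integrable_coeFn f).aestronglyMeasurable
  · intro ξ
    refine Filter.Eventually.of_forall (fun s => ?_)
    rw [norm_mul, norm_chr_apply, one_mul]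
  · exact (L1.integrable_coeFn f).norm
  · refine Filter.Eventually.of_forall (fun s => ?_)
    exact (chr s).continuous.mul continuous_const

lemma fourier_eq_Lam (f : ℝ → ℂ) (ξ : ℝ) : 𝓕 f ξ = ∫ s, chr s ξ * f s := by
  rw [Real.fourier_real_eq_integral_exp_smul]
  rfl

lemma Lam_zero_at_infty (f : L1R) : Tendsto (fun ξ => Lam ξ f) (cocompact ℝ) (𝓝 0) := by
  have := Real.zero_at_infty_fourier (f : ℝ → ℂ)
  refine this.congr (fun ξ => ?_)
  rw [fourier_eq_Lam, Lam_apply]

lemma Lam_mul {f g h : L1R} (hh : (h : ℝ → ℂ) =ᵐ[volume] fun x => ∫ y, f (x - y) * g y) (ξ : ℝ) :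
    Lam ξ h = Lam ξ f * Lam ξ g := by
  have h1 := Real.fourier_mul_convolution_eq (L1.integrable_coeFn g) (L1.integrable_coeFn f) ξ
  rw [fourier_eq_Lam, fourier_eq_Lam, fourier_eq_Lam] at h1
  rw [Lam_apply, Lam_apply, Lam_apply, mul_comm, ← h1]
  apply integral_congr_ae
  filter_upwards [hh] with x hx
  rw [hx]
  congr 1
  unfold convolution
  congr 1
  funext y
  simp [mul_comm]

/-- injectivity of the Fourier transform on `L¹` -/
lemma Lam_injective {f : L1R} (h : ∀ ξ, Lam ξ f = 0) : f = 0 := by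
  have hf := L1.integrable_coeFn f
  have h1 : ∀ᵐ x : ℝ, f x = (0 : ℝ → ℂ) x := by
    refine ae_eq_of_integral_contDiff_smul_eq (μ := volume) hf.locallyIntegrable
      (locallyIntegrable_zero) ?_
    intro φ hφ hφs
    have hφ' : ContDiff ℝ ((⊤ : ℕ∞) : WithTop ℕ∞) (fun x => (φ x : ℂ)) :=
      Complex.ofRealCLM.contDiff.comp hφ
    have hφs' : HasCompactSupport (fun x => (φ x : ℂ)) :=
      hφs.comp_left (g := fun r : ℝ => (r : ℂ)) Complex.ofReal_zero
    let Φ : SchwartzMap ℝ ℂ := hφs'.toSchwartzMap hφ'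
    let Ψ : SchwartzMap ℝ ℂ := 𝓕⁻ Φ
    have h2 : ∀ s, ∫ ξ, chr s ξ * Ψ ξ = (φ s : ℂ) := by
      intro s
      have h3 : 𝓕 (Ψ : ℝ → ℂ) s = (φ s : ℂ) := by
        have h4 : 𝓕 Ψ = Φ := FourierTransform.fourier_fourierInv_eq Φ
        have h5 := congrArg (fun F : SchwartzMap ℝ ℂ => F s) h4
        simp only [SchwartzMap.fourier_coe] at h5
        rw [h5]
        rfl
      rw [← h3, fourier_eq_Lam]
      congr 1
      funext ξ
      rw [chr_apply, chr_apply]
      have : (-2 * Real.pi * ξ * s : ℝ) = (-2 * Real.pi * s * ξ : ℝ) := by ring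
      rw [this]
    have h6 := fubini_chr (μ := volume) (lam := volume) hf Ψ.integrable
    have h7 : ∀ ξ, ∫ s, chr s ξ * f s = 0 := fun ξ => h ξ
    simp only [h2, h7, mul_zero, integral_zero] at h6
    simp only [Complex.real_smul, Pi.zero_apply, smul_zero, integral_zero]
    exact h6
  ext1
  filter_upwards [h1, Lp.coeFn_zero ℂ 1 (volume : Measure ℝ)] with x hx hx0
  rw [hx, hx0]

end Run7.h482.SG
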