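import Pool.Agent.Run7.h482.SG.Core2
import Pool.Agent.Run7.h482.SG.Semi
import Pool.Agent.Run7.h482.SG.Scalar

set_option autoImplicit false

/-!
# No analytic semigroup in `L¹(ℝ)` is bounded on the half-disc
-/

open Filter Topology MeasureTheory Complex
open scoped BoundedContinuousFunction

namespace Run7.h482.SG

lemma conj_ef (ψ : ℂ) (y : ℝ) :
    (starRingEnd ℂ) (Complex.exp (-(y * I * ψ))) = Complex.exp (y * I * (starRingEnd ℂ) ψ) := by
  rw [← Complex.exp_conj]
  congr 1
  simp only [map_neg, map_mul, Complex.conj_ofReal, Complex.conj_I]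
  ring

lemma osc_contra {ψ : ℕ → ℂ} {γ : ℝ → ℂ} {b M : ℝ} (hb : 0 < b)
    (hre : Tendsto (fun n => (ψ n).re) atTop atTop)
    (hbd : ∀ n y, |y| ≤ b → ‖Complex.exp (-((y : ℝ) * I * ψ n))‖ ≤ M)
    (hlim : ∀ y : ℝ, |y| ≤ b → Tendsto (fun n => Complex.exp (-(y * I * ψ n))) atTop (𝓝 (γ y))) :
    False := by
  have hM : 1 ≤ M := by
    have := hbd 0 0 (by simpa using hb.le)
    simpa using this
  have hM0 : 0 < M := by linarith
  have hlow : ∀ y : ℝ, |y| ≤ b → 1 / M ≤ ‖γ y‖ := by
    intro y hy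
    refine ge_of_tendsto (hlim y hy).norm (Filter.Eventually.of_forall (fun n => ?_))
    have h1 := hbd n (-y) (by rwa [abs_neg])
    have h2 : Complex.exp (-((y : ℝ) * I * ψ n)) * Complex.exp (-(((-y : ℝ) : ℂ) * I * ψ n)) = 1 := by
      rw [← Complex.exp_add]
      have : -((y : ℝ) * I * ψ n) + -(((-y : ℝ) : ℂ) * I * ψ n) = 0 := by push_cast; ring
      rw [this, Complex.exp_zero]
    have h3 : ‖Complex.exp (-((y : ℝ) * I * ψ n))‖
        * ‖Complex.exp (-(((-y : ℝ) : ℂ) * I * ψ n))‖ = 1 := by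
      rw [← norm_mul, h2, norm_one]
    rw [div_le_iff₀ hM0]
    nlinarith [norm_nonneg (Complex.exp (-((y : ℝ) * I * ψ n)))]
  have hup : ∀ y : ℝ, |y| ≤ b → ‖γ y‖ ≤ M := by
    intro y hy
    exact le_of_tendsto (hlim y hy).norm (Filter.Eventually.of_forall (fun n => hbd n y hy))
  have hEc : ∀ n, Continuous (fun y : ℝ => Complex.exp (-(y * I * ψ n))) := fun n => by fun_prop
  have hsub : ∀ y ∈ Set.uIoc 0 b, |y| ≤ b := by
    intro y hy
    rw [Set.uIoc_of_le hb.le] at hy
    rw [abs_of_pos hy.1]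
    exact hy.2
  have hγm : AEStronglyMeasurable γ (volume.restrict (Set.uIoc 0 b)) := by
    refine aestronglyMeasurable_of_tendsto_ae atTop
      (f := fun n (y : ℝ) => Complex.exp (-(y * I * ψ n)))
      (fun n => (hEc n).aestronglyMeasurable) ?_
    rw [ae_restrict_iff' measurableSet_uIoc]
    exact Filter.Eventually.of_forall (fun y hy => hlim y (hsub y hy))
  -- step 1
  have step1 : ∀ j, ∫ y in (0 : ℝ)..b, γ y * (starRingEnd ℂ) (Complex.exp (-(y * I * ψ j))) = 0 := by
    intro j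
    have h1 : Tendsto (fun k => ∫ y in (0 : ℝ)..b, Complex.exp (-(y * I * ψ k))
        * (starRingEnd ℂ) (Complex.exp (-(y * I * ψ j)))) atTop
        (𝓝 (∫ y in (0 : ℝ)..b, γ y * (starRingEnd ℂ) (Complex.exp (-(y * I * ψ j))))) := by
      refine intervalIntegral.tendsto_integral_filter_of_dominated_convergence
        (fun _ => M * M) ?_ ?_ ?_ ?_
      · refine Filter.Eventually.of_forall (fun k => ?_)
        exact ((hEc k).mul (Complex.continuous_conj.comp (hEc j))).aestronglyMeasurable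
      · refine Filter.Eventually.of_forall (fun k => Filter.Eventually.of_forall (fun y hy => ?_))
        rw [norm_mul, RCLike.norm_conj]
        exact mul_le_mul (hbd k y (hsub y hy)) (hbd j y (hsub y hy)) (norm_nonneg _) hM0.le
      · exact continuous_const.intervalIntegrable _ _
      · exact Filter.Eventually.of_forall (fun y hy => (hlim y (hsub y hy)).mul_const _)
    have h2 : Tendsto (fun k => ∫ y in (0 : ℝ)..b, Complex.exp (-(y * I * ψ k))
        * (starRingEnd ℂ) (Complex.exp (-(y * I * ψ j)))) atTop (𝓝 0) := by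
      rw [tendsto_zero_iff_norm_tendsto_zero]
      have h3 : Tendsto (fun k => (2 * (M * M)) / ((ψ k).re - (ψ j).re)) atTop (𝓝 0) :=
        (tendsto_atTop_add_const_right _ _ hre).const_div_atTop _
      refine squeeze_zero' (Filter.Eventually.of_forall (fun _ => norm_nonneg _)) ?_ h3
      filter_upwards [hre.eventually_gt_atTop ((ψ j).re)] with k hk
      have hpos : 0 < (ψ k).re - (ψ j).re := by linarith
      set θ : ℂ := ψ k - (starRingEnd ℂ) (ψ j) with hθ
      have hθre : θ.re = (ψ k).re - (ψ j).re := by rw [hθ]; simp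
      have hθ0 : θ ≠ 0 := by
        intro h
        rw [h] at hθre
        simp at hθre
        linarith
      have h4 : ∀ y : ℝ, Complex.exp (-(y * I * ψ k))
          * (starRingEnd ℂ) (Complex.exp (-(y * I * ψ j))) = ef (fun _ => θ) y 0 := by
        intro y
        rw [conj_ef, ← Complex.exp_add]
        unfold ef
        congr 1
        rw [hθ]
        ring
      simp only [h4]
      rw [integral_ef (Φ := fun _ => θ) (ξ := 0) hθ0, norm_div, norm_neg, norm_mul,
        Complex.norm_I, one_mul, ← h4, ← h4]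
      have h5 : ∀ y : ℝ, |y| ≤ b → ‖Complex.exp (-(y * I * ψ k))
          * (starRingEnd ℂ) (Complex.exp (-(y * I * ψ j)))‖ ≤ M * M := by
        intro y hy
        rw [norm_mul, RCLike.norm_conj]
        exact mul_le_mul (hbd k y hy) (hbd j y hy) (norm_nonneg _) hM0.le
      have h6 := h5 b (by rw [abs_of_pos hb])
      have h7 := h5 0 (by simpa using hb.le)
      have h8 : (ψ k).re - (ψ j).re ≤ ‖θ‖ := by
        rw [← hθre]
        exact (le_abs_self _).trans (abs_re_le_norm _)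
      refine div_le_div₀ (by positivity) ?_ hpos h8
      refine (norm_sub_le _ _).trans ?_
      linarith
    exact tendsto_nhds_unique h1 h2
  -- step 2
  have step2 : ∫ y in (0 : ℝ)..b, γ y * (starRingEnd ℂ) (γ y) = 0 := by
    have h1 : Tendsto (fun j => ∫ y in (0 : ℝ)..b, γ y
        * (starRingEnd ℂ) (Complex.exp (-(y * I * ψ j)))) atTop
        (𝓝 (∫ y in (0 : ℝ)..b, γ y * (starRingEnd ℂ) (γ y))) := by
      refine intervalIntegral.tendsto_integral_filter_of_dominated_convergence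
        (fun _ => M * M) ?_ ?_ ?_ ?_
      · refine Filter.Eventually.of_forall (fun k => ?_)
        exact hγm.mul (Complex.continuous_conj.comp (hEc k)).aestronglyMeasurable
      · refine Filter.Eventually.of_forall (fun k => Filter.Eventually.of_forall (fun y hy => ?_))
        rw [norm_mul, RCLike.norm_conj]
        exact mul_le_mul (hup y (hsub y hy)) (hbd k y (hsub y hy)) (norm_nonneg _) hM0.le
      · exact continuous_const.intervalIntegrable _ _
      · refine Filter.Eventually.of_forall (fun y hy => ?_)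
        exact ((Complex.continuous_conj.tendsto _).comp (hlim y (hsub y hy))).const_mul _
    simp only [step1] at h1
    exact (tendsto_nhds_unique h1 tendsto_const_nhds)
  have step3 : ∫ y in (0 : ℝ)..b, ‖γ y‖ ^ 2 = 0 := by
    have h1 : ∀ y, γ y * (starRingEnd ℂ) (γ y) = ((‖γ y‖ ^ 2 : ℝ) : ℂ) := by
      intro y
      rw [Complex.mul_conj, Complex.normSq_eq_norm_sq]
    simp only [h1] at step2
    rw [intervalIntegral.integral_ofReal] at step2
    exact_mod_cast step2
  have step4 : b * (1 / M) ^ 2 ≤ ∫ y in (0 : ℝ)..b, ‖γ y‖ ^ 2 := by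
    have h1 : ∫ y in (0 : ℝ)..b, (1 / M) ^ 2 = b * (1 / M) ^ 2 := by
      rw [intervalIntegral.integral_const, smul_eq_mul, sub_zero]
    rw [← h1]
    apply intervalIntegral.integral_mono_on hb.le (continuous_const.intervalIntegrable _ _)
    · rw [intervalIntegrable_iff]
      refine Integrable.mono' (g := fun _ => M ^ 2) ?_ ?_ ?_
      · rw [← IntegrableOn, ← intervalIntegrable_iff]
        exact continuous_const.intervalIntegrable _ _
      · exact (hγm.norm.pow 2)
      · rw [ae_restrict_iff' measurableSet_uIoc]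
        refine Filter.Eventually.of_forall (fun y hy => ?_)
        rw [Real.norm_of_nonneg (by positivity)]
        exact pow_le_pow_left₀ (norm_nonneg _) (hup y (hsub y hy)) 2
    · intro y hy
      apply pow_le_pow_left₀ (by positivity)
      apply hlow
      rw [abs_of_nonneg hy.1]
      exact hy.2
  rw [step3] at step4
  have : 0 < b * (1 / M) ^ 2 := by positivity
  linarith

lemma W.mul' {f f' : ℝ → ℂ} (hf : Continuous f) (hf' : Continuous f') {C : ℝ}
    (hC : ∀ ξ, ‖f ξ‖ ≤ C) (h : W f) (h' : W f') : W (fun ξ => f ξ * f' ξ) := by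
  obtain ⟨g, hg, hfg⟩ := h
  obtain ⟨g', hg', hfg'⟩ := h'
  exact ⟨g * g', Subalgebra.mul_mem _ hg hg', W.mul hf hf' hC hfg hfg'⟩

lemma W.comp_neg {f : ℝ → ℂ} (h : W f) : W (fun ξ => f (-ξ)) := by
  obtain ⟨g, hg, hfg⟩ := h
  refine ⟨refl g, refl_mem hg, ?_⟩
  have := hfg.comp_neg
  exact this

lemma W_sum_ft (m : Fin 4 → Measure ℝ) [∀ k, IsFiniteMeasure (m k)] :
    W (fun ξ => ∑ k : Fin 4, I ^ (k : ℕ) * ft (m k) ξ) := by
  have h : ∀ k : Fin 4, W (fun ξ => I ^ (k : ℕ) * ft (m k) ξ) := fun k =>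
    W.smul (ft_continuous (m k)) (W_ft (m k)) _
  have hc : ∀ k : Fin 4, Continuous (fun ξ => I ^ (k : ℕ) * ft (m k) ξ) := fun k =>
    continuous_const.mul (ft_continuous (m k))
  simp only [Fin.sum_univ_four]
  exact W.add (((hc 0).add (hc 1)).add (hc 2)) (hc 3)
    (W.add ((hc 0).add (hc 1)) (hc 2) (W.add (hc 0) (hc 1) (h 0) (h 1)) (h 2)) (h 3)

/-- points approaching the imaginary axis -/
noncomputable def tn (y : ℝ) (n : ℕ) : ℂ := ((1 / ((n : ℝ) + 2) : ℝ) : ℂ) + (y : ℂ) * I

lemma tn_re (y : ℝ) (n : ℕ) : (tn y n).re = 1 / ((n : ℝ) + 2) := by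
  unfold tn
  rw [Complex.add_re, Complex.ofReal_re, Complex.re_ofReal_mul, Complex.I_re, mul_zero, add_zero]

lemma tn_re_pos (y : ℝ) (n : ℕ) : 0 < (tn y n).re := by
  rw [tn_re]; positivity

lemma norm_tn_le {y : ℝ} (hy : |y| ≤ 1 / 2) (n : ℕ) : ‖tn y n‖ ≤ 1 := by
  unfold tn
  refine (norm_add_le _ _).trans ?_
  rw [Complex.norm_real, norm_mul, Complex.norm_real, Complex.norm_I, mul_one,
    Real.norm_of_nonneg (by positivity), Real.norm_eq_abs]
  have : 1 / ((n : ℝ) + 2) ≤ 1 / 2 := by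
    apply one_div_le_one_div_of_le (by norm_num)
    have : (0 : ℝ) ≤ n := n.cast_nonneg
    linarith
  linarith

lemma tn_tendsto (y : ℝ) : Tendsto (tn y) atTop (𝓝 ((y : ℂ) * I)) := by
  have h1 : Tendsto (fun n : ℕ => 1 / ((n : ℝ) + 2)) atTop (𝓝 0) := by
    have h2 : Tendsto (fun n : ℕ => (n : ℝ) + 2) atTop atTop :=
      tendsto_atTop_add_const_right _ _ tendsto_natCast_atTop_atTop
    exact h2.const_div_atTop 1
  have h3 : Tendsto (fun n : ℕ => ((1 / ((n : ℝ) + 2) : ℝ) : ℂ)) atTop (𝓝 ((0 : ℝ) : ℂ)) :=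
    (Complex.continuous_ofReal.tendsto _).comp h1
  have h4 := h3.add_const ((y : ℂ) * I)
  rw [Complex.ofReal_zero, zero_add] at h4
  exact h4

theorem no_bounded_semigroup (a : ℂ → L1R) (ha : DifferentiableOn ℂ a {t | 0 < t.re})
    (hmul : ∀ s t : ℂ, 0 < s.re → 0 < t.re →
      (a (s + t) : ℝ → ℂ) =ᵐ[volume] fun x => ∫ y, a s (x - y) * a t y)
    (hne : ∃ t : ℂ, 0 < t.re ∧ a t ≠ 0) (M : ℝ)
    (hM : ∀ t : ℂ, 0 < t.re → ‖t‖ ≤ 1 → ‖a t‖ ≤ M) : False := by
  have h1re : (0 : ℝ) < (1 : ℂ).re := by simp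
  have hAmul : ∀ ξ : ℝ, ∀ s t : ℂ, 0 < s.re → 0 < t.re →
      Lam ξ (a (s + t)) = Lam ξ (a s) * Lam ξ (a t) := fun ξ s t hs ht =>
    Lam_mul (hmul s t hs ht) ξ
  have hAdiff : ∀ ξ : ℝ, DifferentiableOn ℂ (fun t => Lam ξ (a t)) {t | 0 < t.re} := fun ξ =>
    (Lam ξ).differentiable.comp_differentiableOn ha
  set U : Set ℝ := {ξ | Lam ξ (a 1) ≠ 0} with hU
  have hφex : ∀ ξ ∈ U, ∃ φ : ℂ, ∀ t : ℂ, 0 < t.re → Lam ξ (a t) = Complex.exp (-(t * φ)) :=
    fun ξ hξ => scalar_exp (hAdiff ξ) (hAmul ξ) hξ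
  choose! φ hφ using hφex
  have hzero : ∀ ξ, ξ ∉ U → ∀ t : ℂ, 0 < t.re → Lam ξ (a t) = 0 := by
    intro ξ hξ
    apply scalar_zero (hAmul ξ)
    by_contra h
    exact hξ h
  have hUopen : IsOpen U := isOpen_ne_fun (Lam_continuous (a 1)) continuous_const
  have hUne : U.Nonempty := by
    obtain ⟨t, ht, hat⟩ := hne
    by_contra hemp
    rw [Set.not_nonempty_iff_eq_empty] at hemp
    apply hat
    apply Lam_injective
    intro ξ
    exact hzero ξ (by rw [hemp]; exact Set.notMem_empty _) t ht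
  -- convergence at the boundary
  have hconv : ∀ ξ ∈ U, ∀ y : ℝ, Tendsto (fun n => Lam ξ (a (tn y n))) atTop
      (𝓝 (Complex.exp (-(y * I * φ ξ)))) := by
    intro ξ hξ y
    have h1 : ∀ n, Lam ξ (a (tn y n)) = Complex.exp (-(tn y n * φ ξ)) :=
      fun n => hφ ξ hξ _ (tn_re_pos y n)
    simp only [h1]
    refine (Complex.continuous_exp.tendsto _).comp ?_
    exact ((tn_tendsto y).mul_const _).neg
  have hbd : ∀ ξ ∈ U, ∀ y : ℝ, |y| ≤ 1 / 2 → ‖Complex.exp (-(y * I * φ ξ))‖ ≤ M := by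
    intro ξ hξ y hy
    refine le_of_tendsto (hconv ξ hξ y).norm (Filter.Eventually.of_forall (fun n => ?_))
    exact (norm_Lam_le ξ _).trans (hM _ (tn_re_pos y n) (norm_tn_le hy n))
  -- boundary functions
  have hG : ∀ y : ℝ, |y| ≤ 1 / 2 → ∃ G : ℝ → ℂ, Continuous G ∧ W G ∧
      ∀ ξ ∈ U, G ξ = Complex.exp (-(y * I * φ ξ)) := by
    intro y hy
    classical
    obtain ⟨m, hmfin, hm⟩ := exists_measures_of_tendsto (fun n => (a (tn y n) : ℝ → ℂ))
      (fun n => L1.integrable_coeFn _) M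
      (fun n => by
        have := hM _ (tn_re_pos y n) (norm_tn_le hy n)
        rwa [L1.norm_eq_integral_norm] at this)
      (fun ξ => if ξ ∈ U then Complex.exp (-(y * I * φ ξ)) else 0)
      (by
        intro ξ
        by_cases hξ : ξ ∈ U
        · simp only [hξ, if_true]
          exact hconv ξ hξ y
        · simp only [hξ, if_false]
          have : ∀ n, ∫ s, chr s ξ * (a (tn y n)) s = 0 :=
            fun n => hzero ξ hξ _ (tn_re_pos y n)
          simp only [this]
          exact tendsto_const_nhds)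
    refine ⟨fun ξ => ∑ k : Fin 4, I ^ (k : ℕ) * ft (m k) ξ, ?_, W_sum_ft m, ?_⟩
    · refine continuous_finsetSum _ (fun k _ => ?_)
      exact continuous_const.mul (ft_continuous (m k))
    · have h1 : ContinuousOn (fun ξ => Complex.exp (-(y * I * φ ξ))) U := by
        have h2 : ∀ ξ ∈ U, Complex.exp (-(y * I * φ ξ)) = Lam ξ (a (1 + y * I)) / Lam ξ (a 1) := by
          intro ξ hξ
          rw [hφ ξ hξ 1 h1re, hφ ξ hξ (1 + y * I) (by simp), ← Complex.exp_sub]
          congr 1
          ring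
        have h3 : ContinuousOn (fun ξ => Lam ξ (a (1 + y * I)) / Lam ξ (a 1)) U :=
          (Lam_continuous _).continuousOn.div (Lam_continuous _).continuousOn (fun ξ hξ => hξ)
        exact h3.congr h2
      have h4 : (fun ξ => ∑ k : Fin 4, I ^ (k : ℕ) * ft (m k) ξ) =ᵐ[volume.restrict U]
          (fun ξ => Complex.exp (-(y * I * φ ξ))) := by
        rw [Filter.EventuallyEq, ae_restrict_iff' hUopen.measurableSet]
        filter_upwards [hm] with ξ hξ hξU
        rw [← hξ, if_pos hξU]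
      exact Measure.eqOn_open_of_ae_eq h4 hUopen (by
        refine Continuous.continuousOn (continuous_finsetSum _ (fun k _ => ?_))
        exact continuous_const.mul (ft_continuous (m k))) h1
  choose! G hGc hGW hGU using hG
  -- `U` is everything
  have hnormφ : ∀ ξ ∈ U, ‖Lam ξ (a 1)‖ = Real.exp (-(φ ξ).re) := by
    intro ξ hξ
    rw [hφ ξ hξ 1 h1re, Complex.norm_exp]
    simp
  have hUuniv : U = Set.univ := by
    by_contra hne'
    have hfr : ∃ ξ₀ ∈ closure U, ξ₀ ∉ U := by
      by_contra hcl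
      push Not at hcl
      have hclosed : IsClosed U := isClosed_of_closure_subset hcl
      exact hne' ((IsClopen.eq_univ ⟨hclosed, hUopen⟩ hUne))
    obtain ⟨ξ₀, hξ₀, hξ₀'⟩ := hfr
    obtain ⟨x, hxU, hx⟩ := mem_closure_iff_seq_limit.1 hξ₀
    refine osc_contra (ψ := fun n => φ (x n)) (γ := fun y => G y ξ₀) (b := 1 / 2) (M := M)
      (by norm_num) ?_ ?_ ?_
    · have h1 : Tendsto (fun n => Real.exp (-(φ (x n)).re)) atTop (𝓝 0) := by
        have h2 : Lam ξ₀ (a 1) = 0 := hzero ξ₀ hξ₀' 1 h1re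
        have h3 : Tendsto (fun n => Lam (x n) (a 1)) atTop (𝓝 (Lam ξ₀ (a 1))) :=
          ((Lam_continuous (a 1)).tendsto ξ₀).comp hx
        rw [h2] at h3
        have h4 := h3.norm
        rw [norm_zero] at h4
        refine h4.congr (fun n => hnormφ _ (hxU n))
      have h5 : Tendsto (fun n => -(φ (x n)).re) atTop atBot := Real.tendsto_exp_comp_nhds_zero.1 h1
      exact tendsto_neg_atBot_iff.1 h5
    · intro n y hy
      exact hbd _ (hxU n) y hy
    · intro y hy
      have h1 := ((hGc y hy).tendsto ξ₀).comp hx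
      refine h1.congr (fun n => ?_)
      exact hGU y hy _ (hxU n)
  have hmem : ∀ ξ, ξ ∈ U := fun ξ => by rw [hUuniv]; trivial
  -- continuity of `φ`
  have hφc : Continuous φ := by
    have h1 : HasDerivAt a (deriv a 1) 1 :=
      (ha.differentiableAt (isOpen_H.mem_nhds h1re)).hasDerivAt
    have h2 : ∀ ξ, φ ξ = - (Lam ξ (deriv a 1) / Lam ξ (a 1)) := by
      intro ξ
      have e1 : HasDerivAt (fun t => Lam ξ (a t)) (Lam ξ (deriv a 1)) 1 :=
        (Lam ξ).hasFDerivAt.comp_hasDerivAt 1 h1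
      have e2 : HasDerivAt (fun t : ℂ => Complex.exp (-(t * φ ξ)))
          (Complex.exp (-(1 * φ ξ)) * (-(1 * φ ξ))) 1 :=
        (((hasDerivAt_id' (1 : ℂ)).mul_const (φ ξ)).neg).cexp
      have e3 : (fun t => Lam ξ (a t)) =ᶠ[𝓝 1] (fun t : ℂ => Complex.exp (-(t * φ ξ))) := by
        filter_upwards [isOpen_H.mem_nhds h1re] with t ht
        exact hφ ξ (hmem ξ) t ht
      have e4 := e1.unique (e2.congr_of_eventuallyEq e3)
      have e5 := hφ ξ (hmem ξ) 1 h1re
      rw [e4, e5]
      have := Complex.exp_ne_zero (-(1 * φ ξ))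
      field_simp
    have h3 : φ = fun ξ => - (Lam ξ (deriv a 1) / Lam ξ (a 1)) := funext h2
    rw [h3]
    exact ((Lam_continuous _).div (Lam_continuous _) (fun ξ => hmem ξ)).neg
  have hφre : Tendsto (fun ξ => (φ ξ).re) (cocompact ℝ) atTop := by
    have h1 : Tendsto (fun ξ => Real.exp (-(φ ξ).re)) (cocompact ℝ) (𝓝 0) := by
      have h4 := (Lam_zero_at_infty (a 1)).norm
      rw [norm_zero] at h4
      exact h4.congr (fun ξ => hnormφ ξ (hmem ξ))
    exact tendsto_neg_atBot_iff.1 (Real.tendsto_exp_comp_nhds_zero.1 h1)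
  -- symmetrise
  have hef : ∀ y ξ, ef (fun ξ => φ ξ + φ (-ξ)) y ξ
      = Complex.exp (-(y * I * φ ξ)) * Complex.exp (-(y * I * φ (-ξ))) := by
    intro y ξ
    unfold ef
    rw [← Complex.exp_add]
    congr 1
    ring
  have hM0 : 0 ≤ M := (norm_nonneg _).trans (hM 1 h1re (by simp))
  refine core (Φ := fun ξ => φ ξ + φ (-ξ)) (M := M * M) (b := 1 / 2) ?_ ?_ ?_ (by norm_num) ?_ ?_
  · exact hφc.add (hφc.comp continuous_neg)
  · intro ξ
    simp only [neg_neg]
    ring
  · have h1 : Tendsto (fun ξ : ℝ => (φ (-ξ)).re) (cocompact ℝ) atTop :=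
      hφre.comp (Homeomorph.neg ℝ).isClosedEmbedding.tendsto_cocompact
    have h2 := hφre.atTop_add_atTop h1
    refine h2.congr (fun ξ => ?_)
    simp
  · intro y hy ξ
    rw [hef, norm_mul]
    exact mul_le_mul (hbd _ (hmem _) y hy) (hbd _ (hmem _) y hy) (norm_nonneg _) hM0
  · intro y hy
    have h1 : (ef (fun ξ => φ ξ + φ (-ξ)) y) = fun ξ => G y ξ * G y (-ξ) := by
      funext ξ
      rw [hef, hGU y hy _ (hmem _), hGU y hy _ (hmem _)]
    rw [h1]
    refine W.mul' (C := M) (hGc y hy) ((hGc y hy).comp continuous_neg) ?_ (hGW y hy)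
      (hGW y hy).comp_neg
    intro ξ
    rw [hGU y hy _ (hmem _)]
    exact hbd _ (hmem _) y hy

end Run7.h482.SG
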