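import Pool.Agent.Run7.h482.SG.AP

set_option autoImplicit false

/-!
# Functions with vanishing mean modulus, and functions almost periodic up to such functions
-/

open Filter Topology MeasureTheory Complex
open scoped BoundedContinuousFunction

namespace Run7.h482.SG

/-- The mean of `|r|` over `[-n, n]` tends to zero. -/
def Null (r : ℝ → ℂ) : Prop := Tendsto (avgR (fun ξ => ‖r ξ‖)) atTop (𝓝 0)

lemma Null.of_le {r : ℝ → ℂ} {u : ℕ → ℝ} (h : ∀ n, avgR (fun ξ => ‖r ξ‖) n ≤ u n)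
    (hu : Tendsto u atTop (𝓝 0)) : Null r :=
  squeeze_zero (fun n => avgR_nonneg (fun _ => norm_nonneg _) n) h hu

lemma Null.add {r s : ℝ → ℂ} (hr : Continuous r) (hs : Continuous s) (h1 : Null r) (h2 : Null s) :
    Null (fun ξ => r ξ + s ξ) := by
  refine Null.of_le (u := fun n => avgR (fun ξ => ‖r ξ‖) n + avgR (fun ξ => ‖s ξ‖) n) ?_ ?_
  · intro n
    rw [← avgR_add hr.norm hs.norm]
    exact avgR_mono (hr.add hs).norm (hr.norm.add hs.norm) (fun ξ => norm_add_le _ _) n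
  · simpa using Tendsto.add h1 h2

lemma Null.bdd_mul {r s : ℝ → ℂ} (hr : Continuous r) (hs : Continuous s) {C : ℝ}
    (hC : ∀ ξ, ‖r ξ‖ ≤ C) (h2 : Null s) :
    Null (fun ξ => r ξ * s ξ) := by
  refine Null.of_le (u := fun n => C * avgR (fun ξ => ‖s ξ‖) n) ?_ ?_
  · intro n
    rw [← avgR_smul]
    refine avgR_mono (f := fun ξ => ‖r ξ * s ξ‖) (g := fun ξ => C * ‖s ξ‖) (hr.mul hs).norm
      (continuous_const.mul hs.norm) (fun ξ => ?_) n
    rw [norm_mul]
    exact mul_le_mul_of_nonneg_right (hC ξ) (norm_nonneg _)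
  · have := Tendsto.const_mul C h2
    simpa using this

lemma Null.neg {r : ℝ → ℂ} (h : Null r) : Null (fun ξ => - r ξ) := by
  unfold Null at h ⊢
  simpa using h

lemma Null.comp_neg {r : ℝ → ℂ} (h : Null r) : Null (fun ξ => r (-ξ)) := by
  unfold Null at h ⊢
  have : avgR (fun ξ => ‖r (-ξ)‖) = avgR (fun ξ => ‖r ξ‖) := by
    funext n
    unfold avgR
    congr 1
    rw [intervalIntegral.integral_comp_neg (fun ξ => ‖r ξ‖)]
    simp
  rw [this]
  exact h

lemma Null.avg {r : ℝ → ℂ} (h : Null r) : Tendsto (avg r) atTop (𝓝 0) := by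
  rw [tendsto_zero_iff_norm_tendsto_zero]
  exact squeeze_zero (fun _ => norm_nonneg _) (fun n => norm_avg_le r n) h

/-- a function with uniformly large local integrals is not null -/
lemma not_null_of_block {r : ℝ → ℂ} (hr : Continuous r) {B c : ℝ} (hB : 0 < B) (hc : 0 < c)
    (h : ∀ a, c ≤ ∫ ξ in a..(a + B), ‖r ξ‖) : ¬ Null r := by
  intro hn
  have hi : ∀ a b, IntervalIntegrable (fun ξ => ‖r ξ‖) volume a b :=
    fun a b => hr.norm.intervalIntegrable a b
  have hblock : ∀ k : ℕ, k * c ≤ ∫ ξ in (0 : ℝ)..(k * B), ‖r ξ‖ := by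
    intro k
    induction k with
    | zero => simp
    | succ k ih =>
      have := intervalIntegral.integral_add_adjacent_intervals (hi 0 (k * B))
        (hi (k * B) (k * B + B))
      have h2 := h (k * B)
      push_cast
      rw [add_mul, one_mul, add_mul, one_mul, ← this]
      linarith
  have hlow : ∀ n : ℕ, 0 < n → (n / B - 1) * c / (2 * n) ≤ avgR (fun ξ => ‖r ξ‖) n := by
    intro n hn
    have hn' : (0 : ℝ) < n := by exact_mod_cast hn
    set k := ⌊(n : ℝ) / B⌋₊ with hk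
    have h1 : (k : ℝ) ≤ n / B := Nat.floor_le (by positivity)
    have h2 : (n : ℝ) / B - 1 ≤ k := by
      have := Nat.lt_floor_add_one ((n : ℝ) / B)
      linarith
    have h3 : (k : ℝ) * B ≤ n := by rwa [le_div_iff₀ hB] at h1
    have h4 : ∫ ξ in (0 : ℝ)..(k * B), ‖r ξ‖ ≤ ∫ ξ in (-(n : ℝ))..n, ‖r ξ‖ := by
      apply intervalIntegral.integral_mono_interval
      · linarith
      · positivity
      · exact h3
      · exact Filter.Eventually.of_forall (fun _ => norm_nonneg _)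
      · exact hi _ _
    unfold avgR
    rw [div_eq_mul_inv, mul_comm, ← one_div]
    apply mul_le_mul_of_nonneg_left _ (by positivity)
    calc (n / B - 1) * c ≤ k * c := mul_le_mul_of_nonneg_right h2 hc.le
      _ ≤ _ := hblock k
      _ ≤ _ := h4
  have hlim : Tendsto (fun n : ℕ => ((n : ℝ) / B - 1) * c / (2 * n)) atTop (𝓝 (c / (2 * B))) := by
    have h1 : Tendsto (fun n : ℕ => c / (2 * B) - (c / 2) * (1 / (n : ℝ))) atTop
        (𝓝 (c / (2 * B) - (c / 2) * 0)) :=
      tendsto_const_nhds.sub ((tendsto_one_div_atTop_nhds_zero_nat).const_mul _)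
    rw [mul_zero, sub_zero] at h1
    refine h1.congr' ?_
    filter_upwards [eventually_gt_atTop 0] with n hn
    have hn' : (0 : ℝ) < n := by exact_mod_cast hn
    field_simp
  have h5 : c / (2 * B) ≤ 0 := by
    refine le_of_tendsto_of_tendsto hlim hn ?_
    filter_upwards [eventually_gt_atTop 0] with n hn
    exact hlow n hn
  have : 0 < c / (2 * B) := by positivity
  linarith

/-- sup bound for the almost periodic part -/
lemma norm_le_of_null {f : ℝ → ℂ} (hf : Continuous f) {g : ℝ →ᵇ ℂ} (hg : g ∈ apAlg)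
    (h : Null (fun ξ => f ξ - g ξ)) {C : ℝ} (hC : ∀ ξ, ‖f ξ‖ ≤ C) (ξ₀ : ℝ) : ‖g ξ₀‖ ≤ C := by
  by_contra hcon
  push Not at hcon
  set δ := (‖g ξ₀‖ - C) / 3 with hδ
  have hδ0 : 0 < δ := by rw [hδ]; linarith
  obtain ⟨η, hη, hη'⟩ := Metric.continuous_iff.1 g.continuous ξ₀ δ hδ0
  obtain ⟨L, hL, hper⟩ := exists_period hg hδ0
  refine not_null_of_block (hf.sub g.continuous) (B := L + η) (c := η / 2 * δ) (by linarith)
    (by positivity) ?_ h
  intro a
  obtain ⟨τ, hτ, hτ'⟩ := hper (a - ξ₀)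
  have hi : ∀ a b, IntervalIntegrable (fun ξ => ‖f ξ - g ξ‖) volume a b :=
    fun a b => (hf.sub g.continuous).norm.intervalIntegrable a b
  have h1 : ∀ x ∈ Set.Icc (ξ₀ + τ) (ξ₀ + τ + η / 2), δ ≤ ‖f x - g x‖ := by
    intro x hx
    have h2 : dist (x - τ) ξ₀ < η := by
      rw [Real.dist_eq, abs_lt]
      constructor <;> linarith [hx.1, hx.2]
    have h3 := hη' _ h2
    rw [dist_eq_norm] at h3
    have h4 := hτ' (x - τ)
    rw [sub_add_cancel] at h4
    have h5 : ‖g ξ₀‖ ≤ ‖g x‖ + δ + δ := by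
      calc ‖g ξ₀‖ = ‖g x - (g x - g (x - τ)) - (g (x - τ) - g ξ₀)‖ := by congr 1; ring
        _ ≤ ‖g x - (g x - g (x - τ))‖ + ‖g (x - τ) - g ξ₀‖ := norm_sub_le _ _
        _ ≤ ‖g x‖ + ‖g x - g (x - τ)‖ + ‖g (x - τ) - g ξ₀‖ := by
          gcongr; exact norm_sub_le _ _
        _ ≤ _ := by linarith
    have h6 : ‖g x‖ ≤ ‖f x‖ + ‖f x - g x‖ := by
      calc ‖g x‖ = ‖f x - (f x - g x)‖ := by congr 1; ring
        _ ≤ _ := norm_sub_le _ _
    have h7 := hC x
    have h8 : ‖g ξ₀‖ = C + 3 * δ := by rw [hδ]; ring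
    linarith
  have h2 : η / 2 * δ ≤ ∫ ξ in (ξ₀ + τ)..(ξ₀ + τ + η / 2), ‖f ξ - g ξ‖ := by
    have : ∫ ξ in (ξ₀ + τ)..(ξ₀ + τ + η / 2), δ = η / 2 * δ := by
      rw [intervalIntegral.integral_const, smul_eq_mul]; ring
    rw [← this]
    apply intervalIntegral.integral_mono_on (by linarith)
      (continuous_const.intervalIntegrable _ _) (hi _ _) h1
  refine h2.trans ?_
  apply intervalIntegral.integral_mono_interval
  · linarith [hτ.1]
  · linarith
  · linarith [hτ.2]
  · exact Filter.Eventually.of_forall (fun _ => norm_nonneg _)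
  · exact hi _ _

/-- the almost periodic part is unique -/
lemma ap_unique {f : ℝ → ℂ} (hf : Continuous f) {g g' : ℝ →ᵇ ℂ} (hg : g ∈ apAlg)
    (hg' : g' ∈ apAlg) (h : Null (fun ξ => f ξ - g ξ)) (h' : Null (fun ξ => f ξ - g' ξ)) :
    g = g' := by
  have h1 : Null (fun ξ => (0 : ℂ) - (g - g' : ℝ →ᵇ ℂ) ξ) := by
    have := Null.add (hf.sub g.continuous) (hf.sub g'.continuous).neg h h'.neg
    convert this using 2 with ξ
    simp
  ext ξ
  have h2 := norm_le_of_null (f := fun _ => (0 : ℂ)) continuous_const (g := g - g')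
    (Subalgebra.sub_mem _ hg hg') h1 (C := 0) (by simp) ξ
  have h3 : (g - g' : ℝ →ᵇ ℂ) ξ = 0 := by simpa using h2
  rw [BoundedContinuousFunction.sub_apply, sub_eq_zero] at h3
  exact h3

/-- reflection of a bounded continuous function -/
noncomputable def refl (g : ℝ →ᵇ ℂ) : ℝ →ᵇ ℂ :=
  g.compContinuous ⟨fun x => -x, continuous_neg⟩

lemma refl_apply (g : ℝ →ᵇ ℂ) (ξ : ℝ) : refl g ξ = g (-ξ) := rfl

lemma refl_chr (z : ℝ) : refl (chr z) = chr (-z) := by
  ext ξ
  rw [refl_apply, chr_apply, chr_apply]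
  congr 3
  ring

lemma refl_span {h : ℝ →ᵇ ℂ} (hh : h ∈ Submodule.span ℂ (Set.range chr)) : refl h ∈ apAlg := by
  induction hh using Submodule.span_induction with
  | mem x hx =>
    obtain ⟨z, rfl⟩ := hx
    rw [refl_chr]
    exact chr_mem _
  | zero =>
    have : refl 0 = 0 := by ext ξ; simp [refl_apply]
    rw [this]
    exact Subalgebra.zero_mem _
  | add x y _ _ hx hy =>
    have : refl (x + y) = refl x + refl y := by ext ξ; simp [refl_apply]
    rw [this]
    exact Subalgebra.add_mem _ hx hy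
  | smul a x _ hx =>
    have : refl (a • x) = a • refl x := by ext ξ; simp [refl_apply]
    rw [this]
    exact Subalgebra.smul_mem _ hx a

lemma refl_mem {g : ℝ →ᵇ ℂ} (hg : g ∈ apAlg) : refl g ∈ apAlg := by
  rw [← SetLike.mem_coe, ← isClosed_apAlg.closure_eq, Metric.mem_closure_iff]
  intro ε hε
  obtain ⟨h, hh, hgh⟩ := exists_span_approx hg (show 0 < ε / 2 by positivity)
  refine ⟨refl h, refl_span hh, ?_⟩
  have h1 : refl g - refl h = refl (g - h) := by ext ξ; simp [refl_apply]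
  rw [dist_eq_norm, h1]
  refine lt_of_le_of_lt ((BoundedContinuousFunction.norm_le (C := ε / 2)
    (by positivity)).2 ?_) (by linarith)
  intro ξ
  rw [refl_apply]
  exact ((g - h).norm_coe_le_norm _).trans hgh.le

/-- Functions which are almost periodic up to a null function. -/
def W (f : ℝ → ℂ) : Prop := ∃ g ∈ apAlg, Null (fun ξ => f ξ - (g : ℝ →ᵇ ℂ) ξ)

lemma W.mul {f f' : ℝ → ℂ} (hf : Continuous f) (hf' : Continuous f') {C : ℝ}
    (hC : ∀ ξ, ‖f ξ‖ ≤ C) {g g' : ℝ →ᵇ ℂ} (h : Null (fun ξ => f ξ - g ξ))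
    (h' : Null (fun ξ => f' ξ - g' ξ)) :
    Null (fun ξ => f ξ * f' ξ - (g * g') ξ) := by
  have h1 : Null (fun ξ => f ξ * (f' ξ - g' ξ)) :=
    Null.bdd_mul hf (hf'.sub g'.continuous) hC h'
  have h2 : Null (fun ξ => g' ξ * (f ξ - g ξ)) :=
    Null.bdd_mul g'.continuous (hf.sub g.continuous) (C := ‖g'‖)
      (fun ξ => g'.norm_coe_le_norm ξ) h
  have h3 := Null.add (hf.mul (hf'.sub g'.continuous)) (g'.continuous.mul (hf.sub g.continuous))
    h1 h2
  convert h3 using 2 with ξ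
  simp
  ring

lemma W.avg_tendsto {f : ℝ → ℂ} (hf : Continuous f) {g : ℝ →ᵇ ℂ} (h : Null (fun ξ => f ξ - g ξ))
    {c : ℂ} (hc : Tendsto (avg g) atTop (𝓝 c)) : Tendsto (avg f) atTop (𝓝 c) := by
  have h1 := h.avg
  have h2 : avg f = fun n => avg (fun ξ => f ξ - g ξ) n + avg g n := by
    funext n
    rw [avg_sub hf g.continuous]
    ring
  rw [h2]
  simpa using h1.add hc

lemma W.exists_avg {f : ℝ → ℂ} (hf : Continuous f) (h : W f) :
    ∃ c, Tendsto (avg f) atTop (𝓝 c) := by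
  obtain ⟨g, hg, hfg⟩ := h
  obtain ⟨c, hc⟩ := Run7.h482.SG.avg_tendsto hg
  exact ⟨c, W.avg_tendsto hf hfg hc⟩

lemma W.add {f f' : ℝ → ℂ} (hf : Continuous f) (hf' : Continuous f') (h : W f) (h' : W f') :
    W (fun ξ => f ξ + f' ξ) := by
  obtain ⟨g, hg, hfg⟩ := h
  obtain ⟨g', hg', hfg'⟩ := h'
  refine ⟨g + g', Subalgebra.add_mem _ hg hg', ?_⟩
  have := Null.add (hf.sub g.continuous) (hf'.sub g'.continuous) hfg hfg'
  convert this using 2 with ξ
  simp
  ring

lemma W.smul {f : ℝ → ℂ} (hf : Continuous f) (h : W f) (c : ℂ) : W (fun ξ => c * f ξ) := by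
  obtain ⟨g, hg, hfg⟩ := h
  refine ⟨c • g, Subalgebra.smul_mem _ hg c, ?_⟩
  have := Null.bdd_mul (r := fun _ => c) continuous_const (hf.sub g.continuous) (C := ‖c‖)
    (fun _ => le_rfl) hfg
  convert this using 2 with ξ
  simp
  ring

end Run7.h482.SG
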