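import Pool.Agent.Run7.h482.SG.Wiener

set_option autoImplicit false

/-!
# Pointwise limits of Fourier transforms of a bounded sequence in `L¹(ℝ)`
-/

open Filter Topology MeasureTheory Complex
open scoped BoundedContinuousFunction

namespace Run7.h482.SG

/-- the four nonnegative parts of a complex number -/
noncomputable def part (k : Fin 4) (z : ℂ) : ℝ :=
  match k with
  | 0 => max z.re 0
  | 1 => max z.im 0
  | 2 => max (-z.re) 0
  | 3 => max (-z.im) 0

lemma part_nonneg (k : Fin 4) (z : ℂ) : 0 ≤ part k z := by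
  fin_cases k <;> exact le_max_right _ _

lemma part_le (k : Fin 4) (z : ℂ) : part k z ≤ ‖z‖ := by
  have h1 := abs_re_le_norm z
  have h2 := abs_im_le_norm z
  have h3 := norm_nonneg z
  rw [abs_le] at h1 h2
  fin_cases k <;> apply max_le <;> linarith

lemma part_measurable (k : Fin 4) : Continuous (part k) := by
  have h0 : Continuous (fun z : ℂ => max z.re 0) := by fun_prop
  have h1 : Continuous (fun z : ℂ => max z.im 0) := by fun_prop
  have h2 : Continuous (fun z : ℂ => max (-z.re) 0) := by fun_prop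
  have h3 : Continuous (fun z : ℂ => max (-z.im) 0) := by fun_prop
  fin_cases k
  · exact h0
  · exact h1
  · exact h2
  · exact h3

lemma sum_part (z : ℂ) : ∑ k : Fin 4, I ^ (k : ℕ) * (part k z : ℂ) = z := by
  rw [Fin.sum_univ_four]
  have h1 : max z.re 0 - max (-z.re) 0 = z.re := by
    rcases le_total 0 z.re with h | h
    · rw [max_eq_left h, max_eq_right (by linarith)]; ring
    · rw [max_eq_right h, max_eq_left (by linarith)]; ring
  have h2 : max z.im 0 - max (-z.im) 0 = z.im := by
    rcases le_total 0 z.im with h | h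
    · rw [max_eq_left h, max_eq_right (by linarith)]; ring
    · rw [max_eq_right h, max_eq_left (by linarith)]; ring
  have h3 : I ^ 2 = -1 := I_sq
  have h4 : I ^ 3 = -I := by rw [pow_succ, I_sq]; ring
  simp only [part, Fin.val_zero, pow_zero, one_mul, Fin.val_one, pow_one, Fin.val_two, h3]
  have h5 : ((3 : Fin 4) : ℕ) = 3 := rfl
  rw [h5, h4]
  apply Complex.ext
  · simp; linarith
  · simp; linarith

/-- The measures on the one point compactification. -/
noncomputable local instance : MeasurableSpace (OnePoint ℝ) := borel _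

local instance : BorelSpace (OnePoint ℝ) := ⟨rfl⟩

lemma measurable_coe' : Measurable ((↑) : ℝ → OnePoint ℝ) :=
  OnePoint.continuous_coe.measurable

lemma measurableEmbedding_coe : MeasurableEmbedding ((↑) : ℝ → OnePoint ℝ) :=
  OnePoint.isOpenEmbedding_coe.measurableEmbedding

/-- density measure -/
noncomputable def dm (u : ℝ → ℂ) (k : Fin 4) : Measure ℝ :=
  volume.withDensity (fun s => ENNReal.ofReal (part k (u s)))

lemma dm_univ_le {u : ℝ → ℂ} (hu : Integrable u) (k : Fin 4) :
    dm u k Set.univ ≤ ENNReal.ofReal (∫ s, ‖u s‖) := by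
  unfold dm
  rw [withDensity_apply _ MeasurableSet.univ, Measure.restrict_univ,
    ofReal_integral_norm_eq_lintegral_enorm hu]
  apply lintegral_mono
  intro s
  simp only
  rw [← ofReal_norm]
  exact ENNReal.ofReal_le_ofReal (part_le k _)

lemma dm_finite {u : ℝ → ℂ} (hu : Integrable u) (k : Fin 4) : IsFiniteMeasure (dm u k) :=
  ⟨(dm_univ_le hu k).trans_lt ENNReal.ofReal_lt_top⟩

lemma integral_dm {u : ℝ → ℂ} (hu : AEStronglyMeasurable u volume) (k : Fin 4) (f : ℝ → ℂ) :
    ∫ s, f s ∂(dm u k) = ∫ s, (part k (u s) : ℂ) * f s := by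
  unfold dm
  rw [integral_withDensity_eq_integral_toReal_smul₀]
  · congr 1
    funext s
    rw [ENNReal.toReal_ofReal (part_nonneg k _), Complex.real_smul]
  · exact ((part_measurable k).comp_aestronglyMeasurable hu).aemeasurable.ennreal_ofReal
  · exact Filter.Eventually.of_forall (fun _ => ENNReal.ofReal_lt_top)

lemma sum_integral_dm {u : ℝ → ℂ} (hu : Integrable u) (f : ℝ →ᵇ ℂ) :
    ∑ k : Fin 4, I ^ (k : ℕ) * ∫ s, f s ∂(dm u k) = ∫ s, f s * u s := by
  simp only [integral_dm hu.aestronglyMeasurable, ← integral_const_mul]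
  have hint : ∀ k : Fin 4, Integrable (fun s => I ^ (k : ℕ) * ((part k (u s) : ℂ) * f s)) := by
    intro k
    refine (hu.norm.mul_const ‖f‖).mono' ?_ ?_
    · refine AEStronglyMeasurable.const_mul (AEStronglyMeasurable.mul ?_ ?_) _
      · exact Complex.continuous_ofReal.comp_aestronglyMeasurable
          ((part_measurable k).comp_aestronglyMeasurable hu.aestronglyMeasurable)
      · exact f.continuous.aestronglyMeasurable
    · refine Filter.Eventually.of_forall (fun s => ?_)
      rw [norm_mul, norm_mul, norm_pow, Complex.norm_I, one_pow, one_mul, Complex.norm_real,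
        Real.norm_of_nonneg (part_nonneg k _)]
      exact mul_le_mul (part_le k _) (f.norm_coe_le_norm s) (norm_nonneg _) (norm_nonneg _)
  rw [← integral_finsetSum _ (fun k _ => hint k)]
  congr 1
  funext s
  rw [← sum_part (u s), Finset.mul_sum]
  simp only [sum_part]
  apply Finset.sum_congr rfl
  intro k _
  ring

/-- the finite measures on the compactification -/
noncomputable def dmE {u : ℝ → ℂ} (hu : Integrable u) (k : Fin 4) : FiniteMeasure (OnePoint ℝ) :=
  ⟨(dm u k).map ((↑) : ℝ → OnePoint ℝ), by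
    have := dm_finite hu k
    exact Measure.isFiniteMeasure_map _ _⟩

lemma dmE_mass_le {u : ℝ → ℂ} (hu : Integrable u) (k : Fin 4) {M : ℝ}
    (hM : ∫ s, ‖u s‖ ≤ M) : (dmE hu k).mass ≤ M.toNNReal := by
  have h1 : ((dmE hu k).mass : ENNReal) ≤ ENNReal.ofReal M := by
    rw [FiniteMeasure.ennreal_mass]
    change ((dm u k).map ((↑) : ℝ → OnePoint ℝ)) Set.univ ≤ _
    rw [Measure.map_apply measurable_coe' MeasurableSet.univ, Set.preimage_univ]
    exact (dm_univ_le hu k).trans (ENNReal.ofReal_le_ofReal hM)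
  rw [ENNReal.ofReal] at h1
  exact_mod_cast h1

/-- Fubini for the Fourier kernel -/
lemma fubini_chr {μ : Measure ℝ} [SFinite μ] {lam : Measure ℝ} [SFinite lam] {u ψ : ℝ → ℂ}
    (hu : Integrable u μ) (hψ : Integrable ψ lam) :
    ∫ s, (∫ ξ, chr s ξ * ψ ξ ∂lam) * u s ∂μ = ∫ ξ, ψ ξ * ∫ s, chr s ξ * u s ∂μ ∂lam := by
  have h1 : ∀ s, (∫ ξ, chr s ξ * ψ ξ ∂lam) * u s = ∫ ξ, chr s ξ * ψ ξ * u s ∂lam := by
    intro s
    rw [integral_mul_const]
  have h2 : ∀ ξ, ψ ξ * ∫ s, chr s ξ * u s ∂μ = ∫ s, chr s ξ * ψ ξ * u s ∂μ := by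
    intro ξ
    rw [← integral_const_mul]
    congr 1
    funext s
    ring
  simp only [h1, h2]
  rw [integral_integral_swap]
  have h3 : Integrable (fun p : ℝ × ℝ => u p.1 * ψ p.2) (μ.prod lam) := hu.mul_prod hψ
  have h4 : Integrable (fun p : ℝ × ℝ => chr p.1 p.2 * (u p.1 * ψ p.2)) (μ.prod lam) :=
    h3.bdd_mul (c := 1) chr_cont₂.aestronglyMeasurable
      (Filter.Eventually.of_forall (fun p => (norm_chr_apply _ _).le))
  refine h4.congr (Filter.Eventually.of_forall (fun p => ?_))
  simp only [Function.uncurry]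
  ring

/-- **Weak limit lemma.** -/
theorem exists_measures_of_tendsto (u : ℕ → ℝ → ℂ) (hu : ∀ n, Integrable (u n)) (M : ℝ)
    (hM : ∀ n, ∫ s, ‖u n s‖ ≤ M) (g : ℝ → ℂ)
    (hg : ∀ ξ, Tendsto (fun n => ∫ s, chr s ξ * u n s) atTop (𝓝 (g ξ))) :
    ∃ m : Fin 4 → Measure ℝ, (∀ k, IsFiniteMeasure (m k)) ∧
      ∀ᵐ ξ, g ξ = ∑ k : Fin 4, I ^ (k : ℕ) * ft (m k) ξ := by
  classical
  -- limit measures along the ultrafilter
  have hlim : ∀ k : Fin 4, ∃ ν : FiniteMeasure (OnePoint ℝ),
      Tendsto (fun n => dmE (hu n) k) (hyperfilter ℕ : Filter ℕ) (𝓝 ν) := by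
    intro k
    have hK := isCompact_setOfPred_finiteMeasure_le_of_compactSpace (OnePoint ℝ) M.toNNReal
    obtain ⟨ν, -, hν⟩ := hK.ultrafilter_le_nhds' ((hyperfilter ℕ).map (fun n => dmE (hu n) k))
      (by
        rw [Ultrafilter.mem_map]
        exact Filter.Eventually.of_forall (fun n => dmE_mass_le (hu n) k (hM n)))
    exact ⟨ν, hν⟩
  choose ν hν using hlim
  have hνint : ∀ k (f : OnePoint ℝ →ᵇ ℂ), Tendsto (fun n => ∫ s : ℝ, f (s : OnePoint ℝ) ∂(dm (u n) k))
      (hyperfilter ℕ : Filter ℕ) (𝓝 (∫ e, f e ∂(ν k : Measure (OnePoint ℝ)))) := by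
    intro k f
    have := (FiniteMeasure.tendsto_iff_forall_integral_rclike_tendsto ℂ).1 (hν k) f
    refine this.congr (fun n => ?_)
    change ∫ e, f e ∂((dm (u n) k).map ((↑) : ℝ → OnePoint ℝ)) = _
    rw [measurableEmbedding_coe.integral_map]
  -- restrict to the line
  let m : Fin 4 → Measure ℝ := fun k => (ν k : Measure (OnePoint ℝ)).comap ((↑) : ℝ → OnePoint ℝ)
  have hmfin : ∀ k, IsFiniteMeasure (m k) := by
    intro k
    constructor
    change ((ν k : Measure (OnePoint ℝ)).comap ((↑) : ℝ → OnePoint ℝ)) Set.univ < ⊤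
    rw [measurableEmbedding_coe.comap_apply]
    exact measure_lt_top _ _
  have hmint : ∀ k (f : OnePoint ℝ →ᵇ ℂ), f OnePoint.infty = 0 →
      ∫ e, f e ∂(ν k : Measure (OnePoint ℝ)) = ∫ s : ℝ, f (s : OnePoint ℝ) ∂(m k) := by
    intro k f hf
    have h1 : (m k).map ((↑) : ℝ → OnePoint ℝ)
        = (ν k : Measure (OnePoint ℝ)).restrict (Set.range ((↑) : ℝ → OnePoint ℝ)) :=
      measurableEmbedding_coe.map_comap _
    have h2 : ∫ s : ℝ, f (s : OnePoint ℝ) ∂(m k)
        = ∫ e, f e ∂((m k).map ((↑) : ℝ → OnePoint ℝ)) := by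
      rw [measurableEmbedding_coe.integral_map]
    rw [h2, h1]
    symm
    apply setIntegral_eq_integral_of_forall_compl_eq_zero
    intro e he
    have : e = OnePoint.infty := by
      by_contra hne
      obtain ⟨x, hx⟩ := OnePoint.ne_infty_iff_exists.1 hne
      exact he ⟨x, hx⟩
    rw [this, hf]
  refine ⟨m, hmfin, ?_⟩
  -- measurability and boundedness of `g`
  have hFcont : ∀ n, Continuous (fun ξ => ∫ s, chr s ξ * u n s) := by
    intro n
    apply continuous_of_dominated (bound := fun s => ‖u n s‖)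
    · intro ξ
      exact (chr_cont_left ξ).aestronglyMeasurable.mul (hu n).aestronglyMeasurable
    · intro ξ
      refine Filter.Eventually.of_forall (fun s => ?_)
      rw [norm_mul, norm_chr_apply, one_mul]
    · exact (hu n).norm
    · refine Filter.Eventually.of_forall (fun s => ?_)
      exact (chr s).continuous.mul continuous_const
  have hFbd : ∀ n ξ, ‖∫ s, chr s ξ * u n s‖ ≤ M := by
    intro n ξ
    refine (norm_integral_le_integral_norm _).trans ?_
    simp only [norm_mul, norm_chr_apply, one_mul]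
    exact hM n
  have hgmeas : Measurable g :=
    measurable_of_tendsto_metrizable (fun n => (hFcont n).measurable) (tendsto_pi_nhds.2 hg)
  have hgbd : ∀ ξ, ‖g ξ‖ ≤ M := fun ξ =>
    le_of_tendsto (hg ξ).norm (Filter.Eventually.of_forall (fun n => hFbd n ξ))
  have hG : Continuous (fun ξ => ∑ k : Fin 4, I ^ (k : ℕ) * ft (m k) ξ) := by
    refine continuous_finsetSum _ (fun k _ => ?_)
    have := hmfin k
    exact continuous_const.mul (ft_continuous (m k))
  -- the key identity
  have key : ∀ ψ : ℝ → ℂ, Continuous ψ → Integrable ψ →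
      ∫ ξ, ψ ξ * g ξ = ∫ ξ, ψ ξ * ∑ k : Fin 4, I ^ (k : ℕ) * ft (m k) ξ := by
    intro ψ hψc hψ
    -- the transform of `ψ`
    have hΨc : Continuous (fun s => ∫ ξ, chr s ξ * ψ ξ) := by
      apply continuous_of_dominated (bound := fun ξ => ‖ψ ξ‖)
      · intro s
        exact (chr s).continuous.aestronglyMeasurable.mul hψ.aestronglyMeasurable
      · intro s
        refine Filter.Eventually.of_forall (fun ξ => ?_)
        rw [norm_mul, norm_chr_apply, one_mul]
      · exact hψ.norm
      · refine Filter.Eventually.of_forall (fun ξ => ?_)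
        exact (chr_cont_left ξ).mul continuous_const
    have hΨ0 : Tendsto (fun s => ∫ ξ, chr s ξ * ψ ξ) (cocompact ℝ) (𝓝 0) := by
      have := Real.zero_at_infty_fourier ψ
      refine this.congr (fun s => ?_)
      rw [Real.fourier_real_eq_integral_exp_smul]
      congr 1
      funext ξ
      rw [chr_apply, smul_eq_mul]
      have : (-2 * Real.pi * ξ * s : ℝ) = (-2 * Real.pi * s * ξ : ℝ) := by ring
      rw [this]
    let Ψ : C(OnePoint ℝ, ℂ) :=
      OnePoint.continuousMapMk ⟨fun s => ∫ ξ, chr s ξ * ψ ξ, hΨc⟩ 0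
        (by rw [coclosedCompact_eq_cocompact]; exact hΨ0)
    let Ψb : OnePoint ℝ →ᵇ ℂ := BoundedContinuousFunction.mkOfCompact Ψ
    have hΨinf : Ψb OnePoint.infty = 0 := rfl
    let Ψr : ℝ →ᵇ ℂ := Ψb.compContinuous ⟨((↑) : ℝ → OnePoint ℝ), OnePoint.continuous_coe⟩
    have hΨs : ∀ s : ℝ, Ψr s = ∫ ξ, chr s ξ * ψ ξ := fun s => rfl
    have ha : Tendsto (fun n => ∫ s, Ψr s * u n s) (hyperfilter ℕ : Filter ℕ)
        (𝓝 (∑ k : Fin 4, I ^ (k : ℕ) * ∫ s, Ψr s ∂(m k))) := by
      have h1 : ∀ n, ∫ s, Ψr s * u n s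
          = ∑ k : Fin 4, I ^ (k : ℕ) * ∫ s : ℝ, Ψb (s : OnePoint ℝ) ∂(dm (u n) k) :=
        fun n => (sum_integral_dm (hu n) Ψr).symm
      simp only [h1]
      apply tendsto_finsetSum
      intro k _
      have := (hνint k Ψb).const_mul (I ^ (k : ℕ))
      rwa [hmint k Ψb hΨinf] at this
    have hb : ∀ n, ∫ s, Ψr s * u n s = ∫ ξ, ψ ξ * ∫ s, chr s ξ * u n s := by
      intro n
      simp only [hΨs]
      exact fubini_chr (hu n) hψ
    have hc : Tendsto (fun n => ∫ ξ, ψ ξ * ∫ s, chr s ξ * u n s) atTop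
        (𝓝 (∫ ξ, ψ ξ * g ξ)) := by
      refine tendsto_integral_of_dominated_convergence (fun ξ => ‖ψ ξ‖ * M) ?_
        (hψ.norm.mul_const M) ?_ ?_
      · intro n
        exact hψ.aestronglyMeasurable.mul (hFcont n).aestronglyMeasurable
      · intro n
        refine Filter.Eventually.of_forall (fun ξ => ?_)
        rw [norm_mul]
        exact mul_le_mul_of_nonneg_left (hFbd n ξ) (norm_nonneg _)
      · refine Filter.Eventually.of_forall (fun ξ => ?_)
        exact (hg ξ).const_mul _
    have hd : ∀ k, ∫ s, Ψr s ∂(m k) = ∫ ξ, ψ ξ * ft (m k) ξ := by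
      intro k
      have := hmfin k
      have h1 := fubini_chr (μ := m k) (lam := volume) (u := fun _ => (1 : ℂ)) (ψ := ψ)
        (integrable_const _) hψ
      simp only [mul_one] at h1
      simp only [hΨs]
      exact h1
    have he : ∫ ξ, ψ ξ * g ξ = ∑ k : Fin 4, I ^ (k : ℕ) * ∫ s, Ψr s ∂(m k) := by
      have h1 := hc.mono_left (Nat.hyperfilter_le_atTop)
      simp only [← hb] at h1
      exact tendsto_nhds_unique h1 ha
    rw [he]
    simp only [hd, ← integral_const_mul]
    have hint : ∀ k : Fin 4, Integrable (fun ξ => I ^ (k : ℕ) * (ψ ξ * ft (m k) ξ)) := by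
      intro k
      have := hmfin k
      refine Integrable.const_mul ?_ _
      exact hψ.mul_bdd (c := (m k).real Set.univ) (ft_continuous (m k)).aestronglyMeasurable
        (Filter.Eventually.of_forall (fun ξ => norm_ft_le (m k) ξ))
    rw [← integral_finsetSum _ (fun k _ => hint k)]
    congr 1
    funext ξ
    rw [Finset.mul_sum]
    apply Finset.sum_congr rfl
    intro k _
    ring
  refine ae_eq_of_integral_contDiff_smul_eq (f := g)
    (f' := fun ξ => ∑ k : Fin 4, I ^ (k : ℕ) * ft (m k) ξ) (μ := volume) ?_ ?_ ?_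
  · have h1 : LocallyIntegrable (fun _ : ℝ => M) volume := locallyIntegrable_const _
    refine h1.mono hgmeas.aestronglyMeasurable (Filter.Eventually.of_forall (fun ξ => ?_))
    exact (hgbd ξ).trans (le_abs_self M)
  · exact hG.locallyIntegrable
  · intro φ hφ hφs
    have h1 := key (fun ξ => (φ ξ : ℂ)) (Complex.continuous_ofReal.comp hφ.continuous)
      ((hφ.continuous.integrable_of_hasCompactSupport hφs).ofReal)
    simpa only [Complex.real_smul] using h1

end Run7.h482.SG
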