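import Pool.Agent.Run7.h482.SG.Null

set_option autoImplicit false

/-!
# Fourier transforms of finite measures are almost periodic up to null functions
-/

open Filter Topology MeasureTheory Complex
open scoped BoundedContinuousFunction

namespace Run7.h482.SG

/-- Fourier transform of a measure -/
noncomputable def ft (m : Measure ℝ) (ξ : ℝ) : ℂ := ∫ s, chr s ξ ∂m

lemma chr_cont₂ : Continuous (fun p : ℝ × ℝ => chr p.1 p.2) := by
  simp only [chr_apply]
  fun_prop

lemma chr_cont_left (ξ : ℝ) : Continuous (fun s => chr s ξ) :=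
  chr_cont₂.comp (by fun_prop : Continuous fun s : ℝ => (s, ξ))

lemma integrable_chr (m : Measure ℝ) [IsFiniteMeasure m] (ξ : ℝ) :
    Integrable (fun s => chr s ξ) m := by
  refine (integrable_const (1 : ℝ)).mono' (chr_cont_left ξ).aestronglyMeasurable ?_
  exact Filter.Eventually.of_forall (fun s => (norm_chr_apply s ξ).le)

lemma ft_continuous (m : Measure ℝ) [IsFiniteMeasure m] : Continuous (ft m) := by
  unfold ft
  apply continuous_of_dominated (bound := fun _ => (1 : ℝ))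
  · intro ξ; exact (chr_cont_left ξ).aestronglyMeasurable
  · intro ξ; exact Filter.Eventually.of_forall (fun s => (norm_chr_apply s ξ).le)
  · exact integrable_const _
  · exact Filter.Eventually.of_forall (fun s => (chr s).continuous)

lemma norm_ft_le (m : Measure ℝ) [IsFiniteMeasure m] (ξ : ℝ) : ‖ft m ξ‖ ≤ m.real Set.univ := by
  unfold ft
  calc ‖∫ s, chr s ξ ∂m‖ ≤ ∫ s, ‖chr s ξ‖ ∂m := norm_integral_le_integral_norm _
    _ = ∫ s, (1 : ℝ) ∂m := by simp only [norm_chr_apply]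
    _ = m.real Set.univ := by simp

/-- the discrete part -/
lemma ft_discrete (m : Measure ℝ) [IsFiniteMeasure m] {A : Set ℝ} (hA : A.Countable) :
    ∃ g ∈ apAlg, ∀ ξ, ft (m.restrict A) ξ = (g : ℝ →ᵇ ℂ) ξ := by
  have hA' : Countable A := hA.to_subtype
  have hsum : Summable (fun x : A => m.real {(x : ℝ)}) := by
    have h1 : ∀ F : Finset A, ∑ x ∈ F, m.real {(x : ℝ)} ≤ m.real Set.univ := by
      intro F
      have : ∑ x ∈ F, m.real {(x : ℝ)} = m.real (⋃ x ∈ F, {(x : ℝ)}) := by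
        rw [measureReal_biUnion_finset]
        · intro a _ b _ hab
          simp only [Function.onFun, Set.disjoint_singleton]
          exact fun h => hab (Subtype.ext h)
        · intro b _; exact MeasurableSet.singleton _
      rw [this]
      exact measureReal_mono (Set.subset_univ _)
    exact summable_of_sum_le (fun _ => measureReal_nonneg) h1
  have hnorm : ∀ z : ℝ, ‖chr z‖ ≤ 1 := fun z =>
    (BoundedContinuousFunction.norm_le zero_le_one).2 (fun ξ => (norm_chr_apply z ξ).le)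
  have hsum2 : Summable (fun x : A => ((m.real {(x : ℝ)} : ℝ) : ℂ) • chr (x : ℝ)) := by
    apply Summable.of_norm
    refine Summable.of_nonneg_of_le (fun _ => norm_nonneg _) (fun x => ?_) hsum
    rw [norm_smul]
    have : ‖((m.real {(x : ℝ)} : ℝ) : ℂ)‖ = m.real {(x : ℝ)} := by
      rw [Complex.norm_real, Real.norm_of_nonneg measureReal_nonneg]
    rw [this]
    exact mul_le_of_le_one_right measureReal_nonneg (hnorm _)
  refine ⟨∑' x : A, ((m.real {(x : ℝ)} : ℝ) : ℂ) • chr (x : ℝ), ?_, ?_⟩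
  · rw [← SetLike.mem_coe]
    refine isClosed_apAlg.mem_of_tendsto hsum2.hasSum (Filter.Eventually.of_forall (fun F => ?_))
    exact Subalgebra.sum_mem _ (fun x _ => Subalgebra.smul_mem _ (chr_mem _) _)
  · intro ξ
    unfold ft
    rw [setIntegral_countable _ hA (integrable_chr m ξ).integrableOn]
    have h1 := hsum2.hasSum
    have h2 : HasSum (fun x : A => (((m.real {(x : ℝ)} : ℝ) : ℂ) • chr (x : ℝ)) ξ)
        ((∑' x : A, ((m.real {(x : ℝ)} : ℝ) : ℂ) • chr (x : ℝ)) ξ) := by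
      have := (BoundedContinuousFunction.evalCLM ℂ ξ : (ℝ →ᵇ ℂ) →L[ℂ] ℂ).hasSum h1
      exact this
    rw [← h2.tsum_eq]
    congr 1

/-- the kernel -/
noncomputable def kerS (n : ℕ) (u : ℝ) : ℂ := avg (fun ξ => chr u ξ) n

lemma norm_kerS_le (n : ℕ) (u : ℝ) : ‖kerS n u‖ ≤ 1 :=
  norm_avg_le_const (chr u).continuous (fun ξ => (norm_chr_apply u ξ).le) n

lemma kerS_tendsto {u : ℝ} (hu : u ≠ 0) : Tendsto (fun n => kerS n u) atTop (𝓝 0) :=
  avg_chr_zero hu

lemma kerS_continuous (n : ℕ) : Continuous (kerS n) := by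
  unfold kerS avg
  refine continuous_const.mul ?_
  exact intervalIntegral.continuous_parametric_intervalIntegral_of_continuous' (by
    exact chr_cont₂) _ _

lemma conj_ft (m : Measure ℝ) (ξ : ℝ) :
    (starRingEnd ℂ) (ft m ξ) = ∫ s, chr (-s) ξ ∂m := by
  unfold ft
  rw [← integral_conj]
  congr 1
  funext s
  rw [chr_apply, chr_apply, ← Complex.exp_conj]
  congr 1
  simp only [map_mul, Complex.conj_ofReal, Complex.conj_I]
  push_cast
  ring

lemma sq_ft (m : Measure ℝ) [IsFiniteMeasure m] (ξ : ℝ) :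
    ((‖ft m ξ‖ ^ 2 : ℝ) : ℂ) = ∫ p : ℝ × ℝ, chr (p.1 - p.2) ξ ∂(m.prod m) := by
  have h1 : ((‖ft m ξ‖ ^ 2 : ℝ) : ℂ) = ft m ξ * (starRingEnd ℂ) (ft m ξ) := by
    rw [Complex.mul_conj, Complex.normSq_eq_norm_sq]
  rw [h1, conj_ft]
  unfold ft
  rw [← integral_prod_mul]
  congr 1
  funext p
  rw [← BoundedContinuousFunction.mul_apply, chr_mul, sub_eq_add_neg]

lemma avg_sq_ft (m : Measure ℝ) [IsFiniteMeasure m] (n : ℕ) :
    avg (fun ξ => ((‖ft m ξ‖ ^ 2 : ℝ) : ℂ)) n
      = ∫ p : ℝ × ℝ, kerS n (p.1 - p.2) ∂(m.prod m) := by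
  simp only [sq_ft]
  unfold kerS avg
  rw [integral_const_mul]
  congr 1
  have hn : (-(n : ℝ)) ≤ n := by
    have : (0 : ℝ) ≤ n := n.cast_nonneg
    linarith
  simp only [intervalIntegral.integral_of_le hn]
  have hc : Continuous (fun q : ℝ × (ℝ × ℝ) => chr (q.2.1 - q.2.2) q.1) :=
    chr_cont₂.comp (by fun_prop : Continuous fun q : ℝ × (ℝ × ℝ) => (q.2.1 - q.2.2, q.1))
  rw [integral_integral_swap]
  refine (integrable_const (1 : ℝ)).mono' hc.aestronglyMeasurable ?_
  exact Filter.Eventually.of_forall (fun q => (norm_chr_apply _ _).le)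

/-- Wiener's lemma for the continuous part. -/
lemma null_ft_of_noAtoms (m : Measure ℝ) [IsFiniteMeasure m] (hm : ∀ x, m {x} = 0) :
    Null (ft m) := by
  have hdiag : ∀ᵐ p : ℝ × ℝ ∂(m.prod m), p.1 - p.2 ≠ 0 := by
    have hmeas : MeasurableSet {p : ℝ × ℝ | p.1 - p.2 = 0} :=
      (isClosed_eq (by fun_prop) continuous_const).measurableSet
    have h0 : (m.prod m) {p : ℝ × ℝ | p.1 - p.2 = 0} = 0 := by
      rw [Measure.measure_prod_null hmeas]
      refine Filter.Eventually.of_forall (fun x => ?_)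
      have : (Prod.mk x ⁻¹' {p : ℝ × ℝ | p.1 - p.2 = 0}) = {x} := by
        ext y
        simp only [Set.mem_preimage, Set.mem_setOf_eq, Set.mem_singleton_iff]
        constructor
        · intro h; linarith
        · intro h; linarith
      simp only [this]
      exact hm x
    rw [ae_iff]
    simpa using h0
  have h1 : Tendsto (fun n => ∫ p : ℝ × ℝ, kerS n (p.1 - p.2) ∂(m.prod m)) atTop (𝓝 0) := by
    have : (0 : ℂ) = ∫ p : ℝ × ℝ, (0 : ℂ) ∂(m.prod m) := by simp
    rw [this]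
    refine tendsto_integral_of_dominated_convergence (fun _ => (1 : ℝ)) ?_ (integrable_const _)
      ?_ ?_
    · intro n
      exact ((kerS_continuous n).comp (by fun_prop : Continuous fun p : ℝ × ℝ =>
        p.1 - p.2)).aestronglyMeasurable
    · intro n
      exact Filter.Eventually.of_forall (fun p => norm_kerS_le n _)
    · filter_upwards [hdiag] with p hp
      exact kerS_tendsto hp
  have h2 : Tendsto (avgR (fun ξ => ‖ft m ξ‖ ^ 2)) atTop (𝓝 0) := by
    have h3 : ∀ n, ((avgR (fun ξ => ‖ft m ξ‖ ^ 2) n : ℝ) : ℂ)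
        = ∫ p : ℝ × ℝ, kerS n (p.1 - p.2) ∂(m.prod m) := by
      intro n
      rw [← avg_sq_ft]
      unfold avgR avg
      push_cast
      rw [← intervalIntegral.integral_ofReal]
      push_cast
      rfl
    have h4 : Tendsto (fun n => ((avgR (fun ξ => ‖ft m ξ‖ ^ 2) n : ℝ) : ℂ)) atTop (𝓝 ((0 : ℝ) : ℂ)) := by
      simp only [h3]
      simpa using h1
    exact_mod_cast (Complex.continuous_re.tendsto _).comp h4
  have hcont := (ft_continuous m).norm
  unfold Null
  rw [Metric.tendsto_atTop]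
  intro ε hε
  obtain ⟨N, hN⟩ := (Metric.tendsto_atTop.1 h2) (ε * ε / 2) (by positivity)
  refine ⟨N, fun n hn => ?_⟩
  have h5 := hN n hn
  rw [Real.dist_eq, sub_zero] at h5 ⊢
  rw [abs_of_nonneg (avgR_nonneg (fun _ => by positivity) n)] at h5
  rw [abs_of_nonneg (avgR_nonneg (fun _ => norm_nonneg _) n)]
  have h6 : avgR (fun ξ => ‖ft m ξ‖) n
      ≤ avgR (fun ξ => ε / 2 + (1 / (2 * ε)) * ‖ft m ξ‖ ^ 2) n := by
    refine avgR_mono hcont (by fun_prop) (fun ξ => ?_) n
    have : 0 ≤ (‖ft m ξ‖ - ε) ^ 2 := sq_nonneg _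
    have h7 : ‖ft m ξ‖ * (2 * ε) ≤ (ε / 2 + (1 / (2 * ε)) * ‖ft m ξ‖ ^ 2) * (2 * ε) := by
      have : (ε / 2 + (1 / (2 * ε)) * ‖ft m ξ‖ ^ 2) * (2 * ε) = ε ^ 2 + ‖ft m ξ‖ ^ 2 := by
        field_simp
      rw [this]
      nlinarith
    exact le_of_mul_le_mul_right h7 (by positivity)
  have h8 : avgR (fun ξ => ε / 2 + (1 / (2 * ε)) * ‖ft m ξ‖ ^ 2) n
      = avgR (fun _ => ε / 2) n + (1 / (2 * ε)) * avgR (fun ξ => ‖ft m ξ‖ ^ 2) n := by
    rw [avgR_add (f := fun _ => ε / 2) (g := fun ξ => (1 / (2 * ε)) * ‖ft m ξ‖ ^ 2)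
      continuous_const (by fun_prop), avgR_smul]
  have h9 := avgR_const_le (ε / 2) (by positivity) n
  have h10 : (1 / (2 * ε)) * avgR (fun ξ => ‖ft m ξ‖ ^ 2) n < (1 / (2 * ε)) * (ε * ε / 2) :=
    mul_lt_mul_of_pos_left h5 (by positivity)
  have h11 : (1 / (2 * ε)) * (ε * ε / 2) = ε / 4 := by field_simp; ring
  rw [h8] at h6
  linarith

lemma W_ft (m : Measure ℝ) [IsFiniteMeasure m] : W (ft m) := by
  have hA : Set.Countable {t : ℝ | 0 < m {a : ℝ | id a = t}} :=
    Measure.countable_meas_level_set_pos measurable_id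
  set A : Set ℝ := {t : ℝ | 0 < m {a : ℝ | id a = t}} with hAdef
  have hAm : MeasurableSet A := hA.measurableSet
  obtain ⟨g, hg, hg'⟩ := ft_discrete m hA
  refine ⟨g, hg, ?_⟩
  have h1 : ∀ ξ, ft m ξ - g ξ = ft (m.restrict Aᶜ) ξ := by
    intro ξ
    rw [← hg' ξ]
    unfold ft
    rw [← integral_add_compl hAm (integrable_chr m ξ)]
    ring
  simp only [h1]
  apply null_ft_of_noAtoms
  intro x
  rw [Measure.restrict_apply (MeasurableSet.singleton x)]
  by_cases hx : x ∈ A
  · have : ({x} ∩ Aᶜ : Set ℝ) = ∅ := by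
      ext y
      simp only [Set.mem_inter_iff, Set.mem_singleton_iff, Set.mem_compl_iff,
        Set.mem_empty_iff_false, iff_false, not_and, not_not]
      rintro rfl; exact hx
    rw [this, measure_empty]
  · have h2 : m {x} = 0 := by
      by_contra hne
      apply hx
      have h3 : {a : ℝ | id a = x} = {x} := by ext y; simp
      change 0 < m {a : ℝ | id a = x}
      rw [h3]
      exact pos_iff_ne_zero.2 hne
    exact measure_mono_null Set.inter_subset_left h2

end Run7.h482.SG
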